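import Pool.Agent.Helper88.SK.Goals
import Pool.Agent.Helper76.SE.GH
import Pool.Agent.Helper31.GM.GL

/-!
# The density of the roughness at few points, polynomial size
-/

set_option autoImplicit false

open Finset

open scoped Classical

namespace Pool.Agent.Helper88.SK

open Pool.Agent.Helper88.PP (pr om)
open Pool.Agent.Helper88.RR (gg)
open Pool.Agent.Helper88.GM (gB)
open Pool.Agent.Helper31.GM (nu nu_le gB_def mem_pr31)
open Pool.Agent.Helper76.SE (few loss)

/-- the sum of the losses -/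
lemma sum_loss {κ x y z : ℕ} (hy : 1 ≤ y) {B : Finset ℕ} (hB : B ⊆ Icc 1 (x ^ κ)) :
    (∑ p ∈ pr y z, ((B.card : ℝ) - nu B p)) * Real.log y ≤
      (B.card : ℝ) ^ 2 * (κ * Real.log x) := by
  have hly : 0 ≤ Real.log y := Real.log_natCast_nonneg y
  have hlx : 0 ≤ Real.log x := Real.log_natCast_nonneg x
  have h1 : ∑ p ∈ pr y z, ((B.card : ℝ) - nu B p) ≤
      ∑ q ∈ B ×ˢ B, (((pr y z).filter (fun p => q.1 < q.2 ∧ q.1 % p = q.2 % p)).card : ℝ) := by
    have h2 : ∑ p ∈ pr y z, ((B ×ˢ B).filter (fun q => q.1 < q.2 ∧ q.1 % p = q.2 % p)).card =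
        ∑ q ∈ B ×ˢ B, ((pr y z).filter (fun p => q.1 < q.2 ∧ q.1 % p = q.2 % p)).card := by
      simp only [Finset.card_filter]
      rw [Finset.sum_comm]
    have h2' : ∑ p ∈ pr y z,
        (((B ×ˢ B).filter (fun q => q.1 < q.2 ∧ q.1 % p = q.2 % p)).card : ℝ) =
        ∑ q ∈ B ×ˢ B,
          (((pr y z).filter (fun p => q.1 < q.2 ∧ q.1 % p = q.2 % p)).card : ℝ) := by
      exact_mod_cast h2
    rw [← h2']
    apply Finset.sum_le_sum
    intro p _
    have h3 := loss B p
    have h4 : (B.card : ℝ) ≤ nu B p +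
        ((B ×ˢ B).filter (fun q => q.1 < q.2 ∧ q.1 % p = q.2 % p)).card := by
      exact_mod_cast h3
    linarith
  have h2 : ∀ q ∈ B ×ˢ B,
      (((pr y z).filter (fun p => q.1 < q.2 ∧ q.1 % p = q.2 % p)).card : ℝ) * Real.log y ≤
        κ * Real.log x := by
    intro q hq
    obtain ⟨hi, hj⟩ := Finset.mem_product.1 hq
    by_cases hlt : q.1 < q.2
    · have hi' := Finset.mem_Icc.1 (hB hi)
      have hj' := Finset.mem_Icc.1 (hB hj)
      have hd0 : 0 < q.2 - q.1 := by omega
      have hsub : (pr y z).filter (fun p => q.1 < q.2 ∧ q.1 % p = q.2 % p) ⊆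
          (pr y z).filter (fun p => p ∣ q.2 - q.1) := by
        intro p hp
        obtain ⟨hp1, hp2⟩ := Finset.mem_filter.1 hp
        exact Finset.mem_filter.2 ⟨hp1,
          Nat.dvd_of_mod_eq_zero (Nat.sub_mod_eq_zero_of_mod_eq hp2.2.symm)⟩
      have h3 : (((pr y z).filter (fun p => q.1 < q.2 ∧ q.1 % p = q.2 % p)).card : ℝ) ≤
          (((pr y z).filter (fun p => p ∣ q.2 - q.1)).card : ℝ) := by
        exact_mod_cast Finset.card_le_card hsub
      refine (mul_le_mul_of_nonneg_right h3 hly).trans ((few hy hd0).trans ?_)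
      have h4 : ((q.2 - q.1 : ℕ) : ℝ) ≤ (x : ℝ) ^ κ := by
        have : q.2 - q.1 ≤ x ^ κ := by omega
        exact_mod_cast this
      have h5 := Real.log_le_log (by exact_mod_cast hd0) h4
      rw [Real.log_pow] at h5
      exact h5
    · have : (pr y z).filter (fun p => q.1 < q.2 ∧ q.1 % p = q.2 % p) = ∅ := by
        apply Finset.filter_eq_empty_iff.2
        intro p _ h
        exact hlt h.1
      rw [this]
      simp only [Finset.card_empty, Nat.cast_zero, zero_mul]
      positivity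
  calc (∑ p ∈ pr y z, ((B.card : ℝ) - nu B p)) * Real.log y
      ≤ (∑ q ∈ B ×ˢ B,
          (((pr y z).filter (fun p => q.1 < q.2 ∧ q.1 % p = q.2 % p)).card : ℝ)) * Real.log y :=
        mul_le_mul_of_nonneg_right h1 hly
    _ = ∑ q ∈ B ×ˢ B,
          (((pr y z).filter (fun p => q.1 < q.2 ∧ q.1 % p = q.2 % p)).card : ℝ) * Real.log y := by
        rw [Finset.sum_mul]
    _ ≤ ∑ q ∈ B ×ˢ B, (κ * Real.log x) := Finset.sum_le_sum h2
    _ = (B.card : ℝ) ^ 2 * (κ * Real.log x) := by
        rw [Finset.sum_const, Finset.card_product, nsmul_eq_mul]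
        push_cast
        ring

theorem gh (κ : ℕ) : KGH κ := by
  obtain ⟨E1, hE1⟩ := Pool.Agent.Helper88.TU.size
  refine ⟨max E1 (max 2000 ⌈Real.exp (3 * (κ + 1))⌉₊), fun E z x y hE hS B hB hk => ?_⟩
  have hE2000 : 2000 ≤ E := (le_max_left _ _).trans ((le_max_right _ _).trans hE)
  have hEκ : Real.exp (3 * (κ + 1)) ≤ E := (Nat.le_ceil _).trans (by
    exact_mod_cast (le_max_right _ _).trans ((le_max_right _ _).trans hE))
  obtain ⟨s1, s2, s3, s4, s5, s6, s7, s8, s9, s10, s11, s12, s13, s14⟩ :=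
    hE1 E z x y ((le_max_left _ _).trans hE) hS.1
  have h7 := hS.2
  set k := B.card with hkdef
  have hkE : k ≤ E := by nlinarith
  have hyE : 2000 * E ≤ y := by nlinarith
  have h2k : 2 * k ≤ y := by omega
  have hy0 : (0 : ℝ) < y := by
    have : 0 < y := by omega
    exact_mod_cast this
  have hly : (0 : ℝ) < Real.log y := by
    apply Real.log_pos
    have : 1 < y := by omega
    exact_mod_cast this
  have hE' : (2000 : ℝ) ≤ E := by exact_mod_cast hE2000
  have hlx1 : 1 ≤ Real.log x := by nlinarith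
  -- the bound for `k^2 log x`
  have hkx : (k : ℝ) ^ 2 * Real.log x ≤ y := by
    have h1 : (k : ℝ) ^ 2 ≤ E := by exact_mod_cast hk
    have h2 : (k : ℝ) ^ 2 * Real.log x ≤ E * Real.log x :=
      mul_le_mul_of_nonneg_right h1 (by linarith)
    refine h2.trans ?_
    have h3 : ((E : ℝ) * Real.log x) ^ 4 ≤ (y : ℝ) ^ 4 := by
      calc ((E : ℝ) * Real.log x) ^ 4 = (E ^ 2) ^ 2 * Real.log x ^ 4 := by ring
        _ ≤ (Real.log x) ^ 2 * Real.log x ^ 4 := by
            apply mul_le_mul_of_nonneg_right _ (by positivity)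
            exact pow_le_pow_left₀ (by positivity) s5 2
        _ = Real.log x ^ 6 := by ring
        _ ≤ Real.log x ^ 7 := pow_le_pow_right₀ hlx1 (by norm_num)
        _ ≤ (y : ℝ) ^ 4 := h7
    exact le_of_pow_le_pow_left₀ (by norm_num) hy0.le h3
  -- `log y` is large
  have hlog : 3 * ((κ : ℝ) + 1) ≤ Real.log y := by
    rw [Real.le_log_iff_exp_le hy0]
    refine hEκ.trans ?_
    have : E ≤ y := by omega
    exact_mod_cast this
  -- the factors
  have hpk : ∀ p ∈ pr y z, 0 < (p : ℝ) ∧ 2 * (k : ℝ) ≤ p ∧ (y : ℝ) ≤ p := by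
    intro p hp
    have h := mem_pr31 hp
    refine ⟨by exact_mod_cast h.2.2.pos, ?_, by exact_mod_cast h.1.le⟩
    have : 2 * k ≤ p := by omega
    exact_mod_cast this
  have hfpos : ∀ p ∈ pr y z, 0 < 1 - (k : ℝ) / p := by
    intro p hp
    obtain ⟨h1, h2, h3⟩ := hpk p hp
    have hk0 : (0 : ℝ) ≤ k := by positivity
    have : (k : ℝ) / p ≤ 1 / 2 := by
      rw [div_le_iff₀ h1]
      linarith
    linarith
  have hgpos : 0 < gg y z k := Finset.prod_pos hfpos
  refine ⟨hgpos, ?_, ?_, ?_⟩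
  · -- the lower bound
    rw [gB_def]
    apply Finset.prod_le_prod (fun p hp => (hfpos p hp).le)
    intro p hp
    obtain ⟨h1, h2, h3⟩ := hpk p hp
    have h4 : (nu B p : ℝ) ≤ k := by exact_mod_cast nu_le B p
    have := div_le_div_of_nonneg_right h4 h1.le
    linarith
  · -- the upper bound
    rw [gB_def]
    have hfac : ∀ p ∈ pr y z, 1 - (nu B p : ℝ) / p ≤
        (1 - (k : ℝ) / p) * Real.exp (2 * (((k : ℝ) - nu B p) / p)) := by
      intro p hp
      obtain ⟨h1, h2, h3⟩ := hpk p hp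
      have h4 : (nu B p : ℝ) ≤ k := by exact_mod_cast nu_le B p
      set d := ((k : ℝ) - nu B p) / p with hd
      have hd0 : 0 ≤ d := div_nonneg (by linarith) h1.le
      have h5 : 1 - (nu B p : ℝ) / p = (1 - (k : ℝ) / p) + d := by
        rw [hd]; ring
      have h6 : (1 : ℝ) / 2 ≤ 1 - (k : ℝ) / p := by
        have : (k : ℝ) / p ≤ 1 / 2 := by
          rw [div_le_iff₀ h1]
          linarith
        linarith
      rw [h5]
      have h8 : (1 - (k : ℝ) / p) + d ≤ (1 - (k : ℝ) / p) * (1 + 2 * d) := by nlinarith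
      refine h8.trans (mul_le_mul_of_nonneg_left ?_ (by linarith))
      have := Real.add_one_le_exp (2 * d)
      linarith
    have hnn : ∀ p ∈ pr y z, 0 ≤ 1 - (nu B p : ℝ) / p := by
      intro p hp
      obtain ⟨h1, h2, h3⟩ := hpk p hp
      have h4 : (nu B p : ℝ) ≤ k := by exact_mod_cast nu_le B p
      have h5 := div_le_div_of_nonneg_right h4 h1.le
      have h6 := (hfpos p hp).le
      linarith
    have h1 := Finset.prod_le_prod hnn hfac
    rw [Finset.prod_mul_distrib, ← Real.exp_sum] at h1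
    refine h1.trans ?_
    rw [mul_comm (2 : ℝ)]
    apply mul_le_mul_of_nonneg_left _ hgpos.le
    have h2 : ∑ p ∈ pr y z, 2 * (((k : ℝ) - nu B p) / p) ≤
        2 * ((∑ p ∈ pr y z, ((k : ℝ) - nu B p)) / y) := by
      rw [← Finset.mul_sum, Finset.sum_div]
      apply mul_le_mul_of_nonneg_left _ (by norm_num)
      apply Finset.sum_le_sum
      intro p hp
      obtain ⟨h1, h2, h3⟩ := hpk p hp
      have h4 : (nu B p : ℝ) ≤ k := by exact_mod_cast nu_le B p
      exact div_le_div_of_nonneg_left (by linarith) hy0 h3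
    have h3 := sum_loss (z := z) (by omega : 1 ≤ y) hB
    rw [← hkdef] at h3
    set s := ∑ p ∈ pr y z, ((k : ℝ) - nu B p) with hs
    have hs0 : 0 ≤ s := Finset.sum_nonneg fun p _ => by
      have h4 : (nu B p : ℝ) ≤ k := by exact_mod_cast nu_le B p
      linarith
    have h4 : s * Real.log y ≤ (κ : ℝ) * y := by
      refine h3.trans ?_
      calc (k : ℝ) ^ 2 * ((κ : ℝ) * Real.log x) = (κ : ℝ) * ((k : ℝ) ^ 2 * Real.log x) := by ring
        _ ≤ (κ : ℝ) * y := mul_le_mul_of_nonneg_left hkx (Nat.cast_nonneg κ)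
    have h5 : s * (3 * ((κ : ℝ) + 1)) ≤ (κ : ℝ) * y := (mul_le_mul_of_nonneg_left hlog hs0).trans h4
    have h5' : s * 3 ≤ y := by
      have h50 : (0 : ℝ) < (κ : ℝ) + 1 := by positivity
      refine le_of_mul_le_mul_right ?_ h50
      nlinarith
    have h6 : 2 * (s / y) ≤ 2 / 3 := by
      have : s / y ≤ 1 / 3 := by
        rw [div_le_iff₀ hy0]
        linarith
      linarith
    have h8 : Real.exp (∑ p ∈ pr y z, 2 * (((k : ℝ) - nu B p) / p)) ≤ Real.exp (2 / 3) :=
      Real.exp_le_exp.2 (h2.trans h6)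
    refine h8.trans ?_
    have h9 : Real.exp (2 / 3) ≤ Real.exp (Real.log 2) := by
      apply Real.exp_le_exp.2
      have := Real.log_two_gt_d9
      linarith
    rwa [Real.exp_log (by norm_num : (0 : ℝ) < 2)] at h9
  · -- Bernoulli
    unfold gg om
    rw [← Finset.prod_pow]
    apply Finset.prod_le_prod (fun p hp => (hfpos p hp).le)
    intro p hp
    obtain ⟨h1, h2, h3⟩ := hpk p hp
    have hp1 : (1 : ℝ) / p ≤ 1 := by
      rw [div_le_one h1]
      have := (mem_pr31 hp).2.2.one_le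
      exact_mod_cast this
    have h4 := one_add_mul_le_pow (a := -(1 / (p : ℝ))) (by linarith) k
    calc 1 - (k : ℝ) / p = 1 + (k : ℝ) * -(1 / (p : ℝ)) := by ring
      _ ≤ (1 + -(1 / (p : ℝ))) ^ k := h4
      _ = (1 - 1 / (p : ℝ)) ^ k := by ring

end Pool.Agent.Helper88.SK
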