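import Pool.Agent.Helper88.SE.Goals

/-!
# Arbitrary sets of translates without primes: points of any polynomial size

The statements of `Pool/Agent/Helper88/SE/Goals.lean` with the window `[1, x^κ]`, `κ` arbitrary, instead
of `[1, x^5]`; the constants `c`, `C` of the local theorem do not depend on `κ`.
-/

set_option autoImplicit false

open Finset Filter Topology

open scoped Classical

namespace Pool.Agent.Helper88.SK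

open Pool.Agent.Helper88.PP (pr Rg om Sf SS uu vv ee LA VV QQ cost nc dd)
open Pool.Agent.Helper88.RR (gg ab nz VM)
open Pool.Agent.Helper88.GM (NI XI gB In sp)
open Pool.Agent.Helper88.CG (mE qE)
open Pool.Agent.Helper88.SE (Sx Dv SD LD VD ad TD WD wd ED Dd VN GD)

/-- the points: in `[1, x^κ]`, at most `y`, at most `E² / om` -/
def Pk (κ E z x y : ℕ) (P : Finset ℕ) : Prop :=
  P ⊆ Icc 1 (x ^ κ) ∧ P.card ≤ y ∧ (P.card : ℝ) * om y z ≤ (E : ℝ) ^ 2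

def KGH (κ : ℕ) : Prop := ∃ E0 : ℕ, ∀ E z x y : ℕ, E0 ≤ E → Sx E z x y → ∀ B : Finset ℕ,
  B ⊆ Icc 1 (x ^ κ) → B.card ^ 2 ≤ E →
  0 < gg y z B.card ∧ gg y z B.card ≤ gB y z B ∧ gB y z B ≤ 2 * gg y z B.card ∧
    gg y z B.card ≤ om y z ^ B.card

def KTK : Prop := ∃ c : ℝ, 0 < c ∧ ∃ E0 : ℕ, ∀ E z x y : ℕ, E0 ≤ E → Sx E z x y →
  ∀ u v Q b : ℕ, In x u v Q b → ∀ B : Finset ℕ, B.card ^ 2 ≤ E →
  ∀ d : ℕ → ℕ, (∀ i ∈ B, Sf z (d i)) → (∀ i ∈ B, ∀ j ∈ B, i < j → Nat.Coprime (d i) (j - i)) →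
  ∏ i ∈ B, d i ≤ z ^ (E / 4) →
  ((∀ i ∈ B, ∀ j ∈ B, i ≠ j → Nat.Coprime (d i) (d j)) →
    |(((NI u v Q b).filter (fun n => ∀ i ∈ B, d i ∣ n + i ∧ Rg y z (n + i))).card : ℝ)
      - XI u v Q * (gB y z B * ∏ i ∈ B, (1 / (d i : ℝ)))|
      ≤ Real.exp (-(c * E)) * (XI u v Q * (gB y z B * ∏ i ∈ B, (1 / (d i : ℝ)))))
  ∧ (¬ (∀ i ∈ B, ∀ j ∈ B, i ≠ j → Nat.Coprime (d i) (d j)) →
    ((NI u v Q b).filter (fun n => ∀ i ∈ B, d i ∣ n + i ∧ Rg y z (n + i))).card = 0)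

def KDV (κ : ℕ) : Prop := ∃ E0 : ℕ, ∀ E z x y : ℕ, E0 ≤ E → Sx E z x y → ∀ P : Finset ℕ,
  P ⊆ Icc 1 (x ^ κ) → P.card ≤ y → ∃ D : ℕ, Dv z D P

def KTH (κ : ℕ) : Prop := ∃ c : ℝ, 0 < c ∧ ∃ E0 : ℕ, ∀ E z x y : ℕ, E0 ≤ E → Sx E z x y →
  ∀ u v Q b : ℕ, In x u v Q b → ∀ m q K : ℕ, 1 ≤ m → q * m ≤ E / 16 → 1 ≤ VV z m (q * m) →
  K ^ 3 ≤ E → ∀ (P : Finset ℕ) (D : ℕ), Pk κ E z x y P → Dv z D P →
  ∀ (T : Finset (P → ℕ)) (a : (P → ℕ) → ℝ) (F G : Finset P), F.card ≤ 1 → G.card ≤ 1 →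
  Disjoint F G →
  (∀ r ∈ T, ∀ i, i ∉ F → i ∉ G → (r i = 0 ∨ r i ∈ LD z m (q * m) D)) →
  (∀ r ∈ T, ∀ i ∈ F, r i ∈ SD z (z ^ (E / 16)) D) →
  (∀ r ∈ T, ∀ i ∈ G, r i = 1 ∨ r i ∈ LD z m (q * m) D) →
  (∀ r ∈ T, nz r ≤ K) →
  (∀ r ∈ T, ∏ i, max 1 (r i) ≤ z ^ (2 * (E / 16))) →
  (∀ r ∈ T, |a r| ≤ ∏ i, (if i ∈ F then 2 / (VM (E / 16) z * (Nat.totient (r i) : ℝ)) else
    if i ∈ G then (if r i = 1 then 1 else 2 * ab m q z (r i)) else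
    if r i = 0 then 1 else 2 * ab m q z (r i))) →
  |∑ n ∈ NI u v Q b, (∑ r ∈ T, a r * ∏ i, vv y z (r i) (n + (i : ℕ))) ^ 2
      - XI u v Q * ∑ r ∈ T, a r ^ 2 *
        (gB y z (sp r) * ∏ i, (if r i = 0 then 1 else (Nat.totient (r i) : ℝ)))|
    ≤ Real.exp (-(c * E)) * om y z ^ (F.card + G.card) * XI u v Q

def KS1 (κ : ℕ) : Prop := ∃ E0 : ℕ, ∀ E z x y : ℕ, E0 ≤ E → Sx E z x y →
  ∀ u v Q b : ℕ, In x u v Q b → ∀ m q : ℕ, 1 ≤ m → q * m ≤ E / 16 → 1 ≤ VV z m (q * m) →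
  (E / 16 / m + 1) ^ 3 ≤ E → ∀ (P : Finset ℕ) (D : ℕ), Pk κ E z x y P → Dv z D P →
    1 ≤ ED m q (E / 16) z y D P ∧
    1 / 2 * (XI u v Q * ED m q (E / 16) z y D P)
      ≤ ∑ n ∈ NI u v Q b, WD m q (E / 16) z y D P n ^ 2 ∧
    ∑ n ∈ NI u v Q b, WD m q (E / 16) z y D P n ^ 2 ≤ 3 * (XI u v Q * ED m q (E / 16) z y D P)

def KGT (κ : ℕ) : Prop := ∃ c : ℝ, 0 < c ∧ ∃ E0 : ℕ, ∀ E z x y : ℕ, E0 ≤ E → Sx E z x y →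
  ∀ u v Q b : ℕ, In x u v Q b → ∀ m q : ℕ, 1 ≤ m → q * m ≤ E / 16 → 1 ≤ VV z m (q * m) →
  (E / 16 / m + 1) ^ 3 ≤ E → ∀ (P : Finset ℕ) (D : ℕ), Pk κ E z x y P → Dv z D P → ∀ h : P,
    ∑ n ∈ NI u v Q b, GD m q (E / 16) z y D P h n ^ 2 ≤ 2 * (XI u v Q * om y z *
      (∑ r ∈ (TD m q (E / 16) z D P).filter (fun r => E / 16 < cost z r + q * m), wd m q y z D r
        + Real.exp (-(c * E))))

/-- the primes at the points of `P` are killed by the weight; `c` does not depend on `κ` -/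
def KKQ : Prop := ∃ c : ℝ, 0 < c ∧ ∀ κ : ℕ, ∀ η : ℝ, 0 < η → ∃ E0 : ℕ, ∀ E z x y : ℕ, E0 ≤ E →
  Sx E z x y → ∀ u v Q b : ℕ, In x u v Q b → ∀ (P : Finset ℕ) (D : ℕ), P ⊆ Icc 1 (x ^ κ) →
  P.card ≤ y → Dv z D P → (∀ h ∈ P, x ≤ u + h) → (P.card : ℝ) * om y z ≤ c * (E * Real.log E) →
  ∑ n ∈ NI u v Q b, WD (mE E) (qE E) (E / 16) z y D P n ^ 2 *
      ((P.filter (fun h => (n + h).Prime)).card : ℝ)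
    ≤ η * (XI u v Q * ED (mE E) (qE E) (E / 16) z y D P)

def KRC (κ : ℕ) : Prop := ∃ C : ℝ, 0 < C ∧ ∃ E0 : ℕ, ∀ E z x y : ℕ, E0 ≤ E → Sx E z x y →
  ∀ u v Q b : ℕ, In x u v Q b → ∀ (P : Finset ℕ) (D : ℕ), Pk κ E z x y P → Dv z D P →
  ∑ n ∈ NI u v Q b, WD (mE E) (qE E) (E / 16) z y D P n ^ 2 *
      ((P.filter (fun h => Rg y z (n + h))).card : ℝ)
    ≤ C * (XI u v Q * ED (mE E) (qE E) (E / 16) z y D P) * (P.card * om y z + E)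

def KSU (κ : ℕ) : Prop := ∃ E0 : ℕ, ∀ E z x y : ℕ, E0 ≤ E → Sx E z x y → ∀ m q : ℕ, 1 ≤ m →
  q * m ≤ E / 16 → 1 ≤ VV z m (q * m) → (E / 16 / m + 1) ^ 3 ≤ E →
  ∀ (P : Finset ℕ) (D : ℕ), P ⊆ Icc 1 (x ^ κ) → Dv z D P → ∀ n : ℕ, n ≤ x →
    (P.filter (fun h => Rg y z (n + h))).card ≤ E ^ 3 →
    WD m q (E / 16) z y D P n ^ 2 ≤ Real.exp ((E : ℝ) ^ 2 / 2)

/-- the local theorem; `c`, `C` do not depend on `κ` -/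
def KLT : Prop := ∃ c C : ℝ, 0 < c ∧ 0 ≤ C ∧ ∀ κ : ℕ, ∃ A : ℝ, 0 ≤ A ∧ ∃ x0 : ℕ, ∀ x : ℕ,
  x0 ≤ x → ∀ L : ℝ, 0 ≤ L → L ≤ c * Real.log (Real.log x) → ∀ P : Finset ℕ,
  P ⊆ Icc x (x ^ κ) → (P.card : ℝ) ≤ L * Real.log x →
  x * Real.exp (-(A * Real.exp (C * L)))
    ≤ (((Ioc 0 x).filter (fun n => ∀ h ∈ P, ¬ (n + h).Prime)).card : ℝ)

/-- THE MAIN THEOREM: arbitrary sets of integers of polynomial size, in every interval -/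
def KT : Prop := ∃ c C : ℝ, 0 < c ∧ c * C ≤ 1 / 2 ∧ ∀ k : ℕ, ∃ A X : ℝ, ∀ x : ℝ, X ≤ x →
  ∀ u : ℝ, |u| ≤ x ^ k → ∀ L : ℝ, 0 ≤ L → L ≤ c * Real.log (Real.log x) → ∀ S : Finset ℤ,
  (∀ s ∈ S, |(s : ℝ)| ≤ x ^ k) → (S.card : ℝ) ≤ L * Real.log x →
  x * Real.exp (-(A * Real.exp (C * L)))
    ≤ ({n : ℤ | u < n ∧ (n : ℝ) ≤ u + x ∧ (∀ s ∈ S, ∀ p : ℕ, p.Prime → n + s ≠ p) ∧
        ∀ a b : ℤ, a ≤ b → 3 ≤ n + a → (∀ s : ℤ, a ≤ s → s ≤ b → s ∈ S) →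
          ∃ m : ℕ, (Nat.nth Nat.Prime m : ℤ) < n + a ∧
            n + b < Nat.nth Nat.Prime (m + 1)}.ncard : ℝ)

end Pool.Agent.Helper88.SK
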