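import Pool.Agent.Helper88.SK.Goals
import Pool.Agent.Helper88.SE.KQ

/-! # The primes at the points of `P` are killed by the weight, points in `[1, x^κ]` -/

set_option autoImplicit false

open Finset Filter Topology

open scoped Classical

namespace Pool.Agent.Helper88.SK

open Pool.Agent.Helper88.PP (pr Rg om Sf SS uu vv ee LA VV QQ cost)
open Pool.Agent.Helper88.RR (gg ab nz VM StmtRA om_nonneg gg_nonneg gg_succ LA_ne ee_le)
open Pool.Agent.Helper88.GM (NI XI In XI_pos)
open Pool.Agent.Helper88.TU (Su size)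
open Pool.Agent.Helper88.CG (StmtVP mE qE small)
open Pool.Agent.Helper88.SE (Sx Dv SD LD VD ad TD WD wd ED Dd VN GD StmtVB StmtPW LD_ne sum_wt tail point)

theorem kq (h : StmtVP) (hVB : StmtVB) (hS1 : ∀ κ, KS1 κ) (hGT : ∀ κ, KGT κ) (hPW : StmtPW) :
    KKQ := by
  obtain ⟨c1, hc1, EV, hVP⟩ := h
  obtain ⟨EB, hVB⟩ := hVB
  obtain ⟨EZ, hZ⟩ := size
  set c : ℝ := min 1 (c1 / 200) with hc
  have hc0 : 0 < c := lt_min one_pos (by positivity)
  have hcl : c ≤ c1 / 200 := min_le_right _ _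
  have hcone : c ≤ 1 := min_le_left _ _
  clear_value c
  refine ⟨c, hc0, fun κ η hη => ?_⟩
  obtain ⟨cG, hcG, EG, hGT⟩ := hGT κ
  obtain ⟨ES, hS1⟩ := hS1 κ
  obtain ⟨E2, hE2⟩ := small (η / 2) cG (by linarith) hcG
  refine ⟨max (max (max (max ES EG) EZ) (max (max EV E2) 300)) EB, ?_⟩
  intro E z x y hE hSx u v Q b hIn P D hP hPy hDv hxu hPo
  have hEB : EB ≤ E := le_trans (le_max_right _ _) hE
  replace hE := le_trans (le_max_left _ _) hE
  have hEES : ES ≤ E := le_trans (le_trans (le_trans (le_max_left _ _) (le_max_left _ _))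
    (le_max_left _ _)) hE
  have hEEG : EG ≤ E := le_trans (le_trans (le_trans (le_max_right _ _) (le_max_left _ _))
    (le_max_left _ _)) hE
  have hEEZ : EZ ≤ E := le_trans (le_trans (le_max_right _ _) (le_max_left _ _)) hE
  have hEEV : EV ≤ E := le_trans (le_trans (le_trans (le_max_left _ _) (le_max_left _ _))
    (le_max_right _ _)) hE
  have hEE2 : E2 ≤ E := le_trans (le_trans (le_trans (le_max_right _ _) (le_max_left _ _))
    (le_max_right _ _)) hE
  have hE300 : 300 ≤ E := le_trans (le_trans (le_max_right _ _) (le_max_right _ _)) hE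
  obtain ⟨s1, s2⟩ := hE2 E hEE2
  obtain ⟨v1, v2, v3, v4, v5, v6⟩ := hVP E hEEV
  obtain ⟨a1, a2, a3, a4, a5, a6, a7, a8, a9, a10, a11, a12, a13, a14⟩ := hZ E z x y hEEZ hSx.1
  set m := mE E with hm
  set q := qE E with hq
  have hq1 : 1 ≤ q := by rw [hq, qE]; exact Nat.one_le_two_pow
  have hqm : q * m ≤ E / 16 := by
    refine le_trans (Nat.mul_le_mul_right _ ?_) v2
    nlinarith
  have hK : (E / 16 / m + 1) ^ 3 ≤ E := by
    refine le_trans ?_ v4
    have ha : ∀ a : ℕ, a + 1 ≤ 2 * (a + 2) := fun a => by omega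
    calc (E / 16 / m + 1) ^ 3 ≤ (2 * (E / 16 / m + 2)) ^ 3 := Nat.pow_le_pow_left (ha _) 3
      _ ≤ (2 * (E / 16 / m + 2)) ^ 6 := Nat.pow_le_pow_right (Nat.succ_le_of_lt (by positivity)) (by norm_num)
  have hj : 2 * (q / 2 * (q * m)) ≤ E / 16 := by
    refine le_trans ?_ v2
    have h1 : 2 * (q / 2) ≤ q := Nat.mul_div_le q 2
    calc 2 * (q / 2 * (q * m)) = 2 * (q / 2) * (q * m) := by ring
      _ ≤ q * (q * m) := Nat.mul_le_mul_right _ h1
      _ = q ^ 2 * m := by ring
  have hE0 : E ≠ 0 := by omega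
  have hEr : (300 : ℝ) ≤ E := by exact_mod_cast hE300
  have hEpos : (0 : ℝ) < E := by linarith
  -- the size of `z`
  have hx1 : z ^ E ≤ x := hSx.1.2.1
  have hz2' : 2 ≤ z := by omega
  obtain ⟨hV1, hVlog⟩ := v6 z hz2'
  obtain ⟨w1, w2, -, -, -, -⟩ := hVB E z x y hEB hSx m q v1 hqm hV1 P D hDv
  set V := VD z m (q * m) D with hV
  have hVpos : 0 < V := by linarith
  have hV0 : V ≠ 0 := hVpos.ne'
  have hlogE0 : 0 ≤ Real.log E := Real.log_nonneg (by linarith)
  -- the hypotheses on `P`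
  have hom := om_nonneg y z
  have hPo2 : (P.card : ℝ) * om y z ≤ (E : ℝ) ^ 2 := by
    refine hPo.trans ?_
    have h1 : Real.log E ≤ E := Real.log_le_self hEpos.le
    calc c * (E * Real.log E) ≤ 1 * (E * E) := by
          apply mul_le_mul hcone _ (by positivity) (by norm_num)
          exact mul_le_mul_of_nonneg_left h1 hEpos.le
      _ = (E : ℝ) ^ 2 := by ring
  have hPn : Pk κ E z x y P := ⟨hP, hPy, hPo2⟩
  have hMr : (E : ℝ) / 17 ≤ ((E / 16 : ℕ) : ℝ) := by
    have : E ≤ 17 * (E / 16) := by clear hj hK v2 v4 v5; omega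
    have h3 : (E : ℝ) ≤ 17 * ((E / 16 : ℕ) : ℝ) := by exact_mod_cast this
    linarith
  have hx0' : 0 < x := by omega
  obtain ⟨hD1, _, _⟩ := hS1 E z x y hEES hSx u v Q b hIn m q v1 hqm hV1 hK P D hPn hDv
  have hG := hGT E z x y hEEG hSx u v Q b hIn m q v1 hqm hV1 hK P D hPn hDv
  -- the tail
  have htail := tail Pool.Agent.Helper28.RR.ra m q (E / 16) z y (q / 2) D P hPy hV0 hj (by
    refine le_trans ?_ hMr
    rw [← hV]
    have h1 : (P.card : ℝ) * om y z * (1 / V) ≤ c * (E * Real.log E) * (1 / V) :=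
      mul_le_mul_of_nonneg_right hPo (by positivity)
    have h2 : c * (E * Real.log E) * (1 / V) ≤ E / 100 := by
      rw [mul_one_div, div_le_iff₀ hVpos]
      have h3 : c * Real.log E ≤ V / 100 := by
        calc c * Real.log E ≤ c1 / 200 * Real.log E :=
              mul_le_mul_of_nonneg_right hcl hlogE0
          _ ≤ V / 100 := by linarith
      calc c * (E * Real.log E) = E * (c * Real.log E) := by ring
        _ ≤ E * (V / 100) := mul_le_mul_of_nonneg_left h3 hEpos.le
        _ = E / 100 * V := by ring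
    linarith)
  set F := ED m q (E / 16) z y D P with hF
  set Sig := ∑ r ∈ (TD m q (E / 16) z D P).filter (fun r => E / 16 < cost z r + q * m),
    wd m q y z D r with hSig
  have hXX : 0 < XI u v Q := XI_pos (by omega) hIn
  have hD0 : 0 < F := by linarith
  have hSigD : Sig ≤ 1 / 2 ^ (q / 2) * F := by
    rw [one_div, ← div_eq_inv_mul, le_div_iff₀ (by positivity), mul_comm]
    exact htail
  have hzx : z ^ (E / 16) ≤ x := le_trans (Nat.pow_le_pow_right (by omega) (by omega)) hx1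
  have hA : ∑ n ∈ NI u v Q b,
      WD m q (E / 16) z y D P n ^ 2 * ((P.filter (fun h => (n + h).Prime)).card : ℝ) ≤
      ∑ n ∈ NI u v Q b, ∑ h : P, GD m q (E / 16) z y D P h n ^ 2 := by
    refine Finset.sum_le_sum fun n hn => ?_
    have hn1 : u < n := (Finset.mem_Ioc.mp (Finset.mem_filter.mp hn).1).1
    exact point hPW m q (E / 16) z y n D P v3 v1 hz2' hV0 hqm (fun h hh => by
      have := hxu h hh
      omega)
  rw [Finset.sum_comm] at hA
  have hB := hA.trans (Finset.sum_le_sum fun h _ => hG h)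
  rw [Finset.sum_const, nsmul_eq_mul, Finset.card_univ, Fintype.card_coe] at hB
  refine hB.trans ?_
  have hSig0 : Sig + Real.exp (-(cG * E)) ≤
      1 / 2 ^ (q / 2) * F + Real.exp (-(cG * E)) * F := by
    have h1 : Real.exp (-(cG * E)) ≤ Real.exp (-(cG * E)) * F :=
      le_mul_of_one_le_right (Real.exp_pos _).le hD1
    linarith
  have hPom : 0 ≤ (P.card : ℝ) * om y z := mul_nonneg (Nat.cast_nonneg _) hom
  calc (P.card : ℝ) * (2 * (XI u v Q * om y z * (Sig + Real.exp (-(cG * E)))))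
      = 2 * (XI u v Q * ((P.card : ℝ) * om y z * (Sig + Real.exp (-(cG * E))))) := by ring
    _ ≤ 2 * (XI u v Q * ((P.card : ℝ) * om y z *
          (1 / 2 ^ (q / 2) * F + Real.exp (-(cG * E)) * F))) := by gcongr
    _ ≤ 2 * (XI u v Q * ((E : ℝ) ^ 2 *
          (1 / 2 ^ (q / 2) * F + Real.exp (-(cG * E)) * F))) := by
        have : 0 ≤ 1 / 2 ^ (q / 2) * F + Real.exp (-(cG * E)) * F := by positivity
        gcongr
    _ = 2 * (XI u v Q * F * ((E : ℝ) ^ 2 * (1 / 2 ^ (q / 2)) +
          (E : ℝ) ^ 2 * Real.exp (-(cG * E)))) := by ring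
    _ ≤ 2 * (XI u v Q * F * (η / 2 / 2 + η / 2 / 2)) :=
        mul_le_mul_of_nonneg_left (mul_le_mul_of_nonneg_left (add_le_add s1 s2) (by positivity))
          (by norm_num)
    _ = η * (XI u v Q * F) := by ring

end Pool.Agent.Helper88.SK
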