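import Pool.Agent.Helper88.SK.Goals
import Pool.Agent.Helper88.SE.LT

/-! # The local theorem, points in `[x, x^κ]` -/

set_option autoImplicit false

open Finset Filter Topology

open scoped Classical

namespace Pool.Agent.Helper88.SK

open Pool.Agent.Helper88.PP (pr Rg om Sf SS uu vv ee LA VV QQ cost)
open Pool.Agent.Helper88.RR (gg ab nz VM om_nonneg)
open Pool.Agent.Helper88.GM (NI XI In XI_pos)
open Pool.Agent.Helper88.TU (Su size choose3)
open Pool.Agent.Helper88.CG (StmtVP mE qE)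
open Pool.Agent.Helper88.AC (hlogN hllN)
open Pool.Agent.Helper88.SE (Sx Dv SD LD VD ad TD WD wd ED Dd VN GD StmtCL key sizesL)

/-- one class -/
theorem one (hVP : StmtVP) (hDV : ∀ κ, KDV κ) (hS1 : ∀ κ, KS1 κ) (hKQ : KKQ)
    (hRC : ∀ κ, KRC κ) (hSU : ∀ κ, KSU κ) : ∃ c : ℝ, 0 < c ∧ ∀ κ : ℕ, ∃ E0 : ℕ, ∀ E z x y : ℕ, E0 ≤ E → Sx E z x y →
    ∀ b < QQ x, ∀ P : Finset ℕ, P ⊆ Icc x (x ^ κ) → P.card ≤ y →
    (P.card : ℝ) * om y z ≤ c * (E * Real.log E) →
    XI 0 x (QQ x) * Real.exp (-((E : ℝ) ^ 2)) ≤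
      (((NI 0 x (QQ x) b).filter (fun n => ∀ h ∈ P, ¬ (n + h).Prime)).card : ℝ) := by
  obtain ⟨cV, hcV, EV, hVP⟩ := hVP
  obtain ⟨c, hc, hKQ⟩ := hKQ
  obtain ⟨EZ, hZ⟩ := size
  set c' : ℝ := min c 1 with hc'
  have hc'0 : 0 < c' := lt_min hc one_pos
  have hc'c : c' ≤ c := min_le_left _ _
  have hc'1 : c' ≤ 1 := min_le_right _ _
  refine ⟨c', hc'0, fun κ => ?_⟩
  obtain ⟨ED0, hDV⟩ := hDV κ
  obtain ⟨ES, hS1⟩ := hS1 κ
  obtain ⟨EK, hKQ⟩ := hKQ κ (1 / 8) (by norm_num)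
  obtain ⟨C, hC, ER, hRC⟩ := hRC κ
  obtain ⟨EU, hSU⟩ := hSU κ
  obtain ⟨N1, hN1⟩ := exists_nat_ge (16 * C)
  refine ⟨EV + ED0 + ES + EK + ER + EU + EZ + N1 + 300, ?_⟩
  intro E z x y hE hSx b hb P hP hPy hPo
  obtain ⟨v1, v2, v3, v4, v5, v6⟩ := hVP E (by omega)
  obtain ⟨a1, a2, a3, a4, a5, a6, a7, a8, a9, a10, a11, a12, a13, a14⟩ := hZ E z x y (by omega) hSx.1
  set m := mE E with hm
  set q := qE E with hq
  have hq1 : 1 ≤ q := by rw [hq, qE]; exact Nat.one_le_two_pow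
  have hqm : q * m ≤ E / 16 := by
    refine le_trans (Nat.mul_le_mul_right _ ?_) v2
    nlinarith
  have hK : (E / 16 / m + 1) ^ 3 ≤ E := by
    refine le_trans ?_ v4
    have ha : ∀ a : ℕ, a + 1 ≤ 2 * (a + 2) := fun a => by omega
    calc (E / 16 / m + 1) ^ 3 ≤ (2 * (E / 16 / m + 2)) ^ 3 := Nat.pow_le_pow_left (ha _) 3
      _ ≤ (2 * (E / 16 / m + 2)) ^ 6 := Nat.pow_le_pow_right (Nat.succ_le_of_lt (by positivity)) (by norm_num)
  have hz2 : 2 ≤ z := by omega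
  obtain ⟨hV1, -⟩ := v6 z hz2
  have hx1 : 1 ≤ x := by omega
  have hE300 : 300 ≤ E := by omega
  have hEr : (300 : ℝ) ≤ E := by exact_mod_cast hE300
  have hEpos : (0 : ℝ) < E := by linarith
  have hP1 : P ⊆ Icc 1 (x ^ κ) := hP.trans (Finset.Icc_subset_Icc_left hx1)
  obtain ⟨D, hD⟩ := hDV E z x y (by omega) hSx P hP1 hPy
  have hIn : In x 0 x (QQ x) b := ⟨dvd_rfl, hb, by omega⟩
  have hlog : Real.log E ≤ E := Real.log_le_self hEpos.le
  have hlog0 : 0 ≤ Real.log E := Real.log_nonneg (by linarith)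
  have hPo2 : (P.card : ℝ) * om y z ≤ (E : ℝ) ^ 2 := by
    refine hPo.trans ?_
    calc c' * (E * Real.log E) ≤ 1 * (E * E) := by
          apply mul_le_mul hc'1 _ (by positivity) (by norm_num)
          exact mul_le_mul_of_nonneg_left hlog hEpos.le
      _ = (E : ℝ) ^ 2 := by ring
  have hPn : Pk κ E z x y P := ⟨hP1, hPy, hPo2⟩
  obtain ⟨b1, b2, b3⟩ := hS1 E z x y (by omega) hSx 0 x (QQ x) b hIn m q v1 hqm hV1 hK P D hPn hD
  have b4 := hKQ E z x y (by omega) hSx 0 x (QQ x) b hIn P D hP1 hPy hD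
    (fun h hh => by have := (Finset.mem_Icc.1 (hP hh)).1; omega)
    (hPo.trans (mul_le_mul_of_nonneg_right hc'c (by positivity)))
  have b5 := hRC E z x y (by omega) hSx 0 x (QQ x) b hIn P D hPn hD
  have b6 := hSU E z x y (by omega) hSx m q v1 hqm hV1 hK P D hP1 hD
  have hXI : 0 < XI 0 x (QQ x) := XI_pos hx1 hIn
  set F := ED m q (E / 16) z y D P with hF
  have hpc : ∀ n, ((P.filter (fun h => (n + h).Prime)).card : ℝ) = 0 ↔
      ∀ h ∈ P, ¬ (n + h).Prime := by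
    intro n
    rw [Nat.cast_eq_zero, Finset.card_eq_zero, Finset.filter_eq_empty_iff]
  have hmain := key (N := NI 0 x (QQ x) b) (W2 := fun n => WD m q (E / 16) z y D P n ^ 2)
    (rp := fun n => ((P.filter (fun h => Rg y z (n + h))).card : ℝ))
    (pc := fun n => ((P.filter (fun h => (n + h).Prime)).card : ℝ))
    (X := XI 0 x (QQ x)) (F := F) (B := Real.exp ((E : ℝ) ^ 2 / 2)) (T := (E : ℝ) ^ 3)
    (C1 := C * ((E : ℝ) ^ 2 + E))
    (fun n _ => sq_nonneg _) (Real.exp_pos _).le (fun n _ => Nat.cast_nonneg _)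
    (fun n _ => Nat.cast_nonneg _)
    (fun n _ h => by
      have h1 : (P.filter (fun h => (n + h).Prime)).card ≠ 0 := by
        intro h2
        apply h
        rw [h2]
        norm_num
      exact_mod_cast Nat.one_le_iff_ne_zero.2 h1)
    (fun n hn h => by
      have hn1 : n ≤ x := (Finset.mem_Ioc.mp (Finset.mem_filter.mp hn).1).2
      exact b6 n hn1 (by exact_mod_cast h))
    (by positivity) hXI b1 b2 b4 (by
      refine b5.trans ?_
      have h1 : C * (XI 0 x (QQ x) * F) * ((P.card : ℝ) * om y z + E) ≤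
          C * (XI 0 x (QQ x) * F) * ((E : ℝ) ^ 2 + E) := by
        have : 0 ≤ C * (XI 0 x (QQ x) * F) := by positivity
        exact mul_le_mul_of_nonneg_left (by linarith) this
      refine h1.trans (le_of_eq ?_)
      ring)
    (by
      have h1 : (N1 : ℝ) ≤ E := by exact_mod_cast (by omega : N1 ≤ E)
      have h2 : 16 * C ≤ E := hN1.trans h1
      have h3 : (E : ℝ) ^ 2 + E ≤ 2 * (E : ℝ) ^ 2 := by nlinarith
      calc C * ((E : ℝ) ^ 2 + E) ≤ C * (2 * (E : ℝ) ^ 2) := mul_le_mul_of_nonneg_left h3 hC.le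
        _ = (16 * C) * (E : ℝ) ^ 2 / 8 := by ring
        _ ≤ E * (E : ℝ) ^ 2 / 8 := by gcongr
        _ = (E : ℝ) ^ 3 / 8 := by ring)
  have hcard : ((NI 0 x (QQ x) b).filter (fun n =>
      ((P.filter (fun h => (n + h).Prime)).card : ℝ) = 0)) =
      (NI 0 x (QQ x) b).filter (fun n => ∀ h ∈ P, ¬ (n + h).Prime) :=
    Finset.filter_congr fun n _ => hpc n
  rw [hcard] at hmain
  set G := (((NI 0 x (QQ x) b).filter (fun n => ∀ h ∈ P, ¬ (n + h).Prime)).card : ℝ) with hG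
  have h4 : (4 : ℝ) ≤ Real.exp ((E : ℝ) ^ 2 / 2) := by
    have := Real.add_one_le_exp ((E : ℝ) ^ 2 / 2)
    nlinarith
  have h5 : Real.exp (-((E : ℝ) ^ 2)) * (Real.exp ((E : ℝ) ^ 2 / 2) * Real.exp ((E : ℝ) ^ 2 / 2)) = 1 := by
    rw [← Real.exp_add, ← Real.exp_add, ← Real.exp_zero]
    congr 1
    ring
  have h6 : XI 0 x (QQ x) ≤ Real.exp ((E : ℝ) ^ 2 / 2) * Real.exp ((E : ℝ) ^ 2 / 2) * G := by
    have hG0 : 0 ≤ G := Nat.cast_nonneg _
    calc XI 0 x (QQ x) ≤ 4 * (Real.exp ((E : ℝ) ^ 2 / 2) * G) := by linarith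
      _ ≤ Real.exp ((E : ℝ) ^ 2 / 2) * (Real.exp ((E : ℝ) ^ 2 / 2) * G) :=
          mul_le_mul_of_nonneg_right h4 (by positivity)
      _ = _ := by ring
  calc XI 0 x (QQ x) * Real.exp (-((E : ℝ) ^ 2))
      ≤ (Real.exp ((E : ℝ) ^ 2 / 2) * Real.exp ((E : ℝ) ^ 2 / 2) * G) *
          Real.exp (-((E : ℝ) ^ 2)) := mul_le_mul_of_nonneg_right h6 (Real.exp_pos _).le
    _ = (Real.exp (-((E : ℝ) ^ 2)) * (Real.exp ((E : ℝ) ^ 2 / 2) *
          Real.exp ((E : ℝ) ^ 2 / 2))) * G := by ring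
    _ = G := by rw [h5, one_mul]

/-- THE LOCAL THEOREM -/
theorem lt (hVP : StmtVP) (hDV : ∀ κ, KDV κ) (hS1 : ∀ κ, KS1 κ) (hKQ : KKQ)
    (hRC : ∀ κ, KRC κ) (hSU : ∀ κ, KSU κ) (hCL : StmtCL)
    (hA4 : Pool.Agent.Helper88.TU.StmtA4) : KLT := by
  obtain ⟨c1, hc1, h1⟩ := one hVP hDV hS1 hKQ hRC hSU
  obtain ⟨C4, hC4, E4, hA4⟩ := hA4
  set D : ℝ := max 3 (2 * C4 / c1) with hD
  have hD3 : 3 ≤ D := le_max_left _ _
  have hDc : 2 * C4 ≤ D * c1 := by
    have : 2 * C4 / c1 ≤ D := le_max_right _ _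
    rwa [div_le_iff₀ hc1] at this
  have hD0 : 0 < D := by linarith
  refine ⟨min (1 / (16 * D)) (1 / 4), 2 * D, lt_min (by positivity) (by norm_num), by positivity,
    fun κ => ?_⟩
  obtain ⟨E1, h1⟩ := h1 κ
  -- `lam0`
  obtain ⟨lam0, hl0, hl1⟩ : ∃ lam0 : ℝ, 1 ≤ lam0 ∧ ((E1 + E4 : ℕ) : ℝ) ≤ Real.exp (D * lam0) := by
    refine ⟨1 + ((E1 + E4 : ℕ) : ℝ), by
      have : (0 : ℝ) ≤ ((E1 + E4 : ℕ) : ℝ) := Nat.cast_nonneg _
      linarith, ?_⟩
    have h2 : (0 : ℝ) ≤ ((E1 + E4 : ℕ) : ℝ) := Nat.cast_nonneg _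
    have h3 := Real.add_one_le_exp (D * (1 + ((E1 + E4 : ℕ) : ℝ)))
    nlinarith
  obtain ⟨x1, hx1⟩ := choose3 hD3
  obtain ⟨x2, hx2⟩ := eventually_atTop.1 (sizesL 1 lam0 D one_pos)
  refine ⟨4 * Real.exp (2 * D * lam0) + 1, by positivity, max x1 x2,
    fun x hx L hL0 hL P hP hPc => ?_⟩
  have hxx1 : x1 ≤ x := (le_max_left _ _).trans hx
  obtain ⟨g1, g2, g3, g4, g5⟩ := hx2 x ((le_max_right _ _).trans hx)
  set l := Real.log (x : ℝ) with hl
  set ll := Real.log l with hll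
  have hLa : L ≤ 1 / (16 * D) * ll := hL.trans (mul_le_mul_of_nonneg_right (min_le_left _ _)
    (by linarith))
  have hLb : L ≤ 1 / 4 * ll := hL.trans (mul_le_mul_of_nonneg_right (min_le_right _ _)
    (by linarith))
  have hLlam : 8 * D * (L + lam0) ≤ ll := by
    have h2 : 8 * D * L ≤ 1 / 2 * ll := by
      have h3 := mul_le_mul_of_nonneg_left hLa (by positivity : 0 ≤ 8 * D)
      have h4 : 8 * D * (1 / (16 * D) * ll) = 1 / 2 * ll := by
        field_simp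
        ring
      linarith
    have h5 : 8 * D * lam0 ≤ 8 * D * (lam0 + 1) :=
      mul_le_mul_of_nonneg_left (by linarith) (by positivity)
    have h6 : 8 * D * (L + lam0) = 8 * D * L + 8 * D * lam0 := by ring
    linarith
  obtain ⟨E, z, hEpos, hE1, hE2, hE3, hE4⟩ := hx1 x hxx1 (L + lam0) (by linarith) hLlam
  -- `y`
  obtain ⟨y, hy⟩ : ∃ y : ℕ, y = ⌊l ^ 2⌋₊ := ⟨_, rfl⟩
  have hy1 : (y : ℝ) ≤ l ^ 2 := by rw [hy]; exact Nat.floor_le (by positivity)
  have hy2 : l ^ 2 - 1 ≤ y := by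
    have := Nat.lt_floor_add_one (l ^ 2)
    rw [← hy] at this
    linarith
  have hy3 : 1 / 2 * l ^ 2 ≤ y := by nlinarith
  have hly : l ≤ y := by nlinarith
  have hSu : Su E z x y := hE4 y hly hy1
  have hSx : Sx E z x y := by
    refine ⟨hSu, ?_⟩
    calc l ^ 7 = 16 * l ^ 7 / 16 := by ring
      _ ≤ l * l ^ 7 / 16 := by gcongr
      _ = (1 / 2 * l ^ 2) ^ 4 := by ring
      _ ≤ (y : ℝ) ^ 4 := pow_le_pow_left₀ (by positivity) hy3 4
  have hPy : P.card ≤ y := by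
    have h2 : (P.card : ℝ) ≤ y := by
      refine hPc.trans (le_trans ?_ hy3)
      calc L * l ≤ (1 / 4 * ll) * l := mul_le_mul_of_nonneg_right hLb (by linarith)
        _ ≤ (1 / 4 * (1 / 2 * l)) * l := by
          apply mul_le_mul_of_nonneg_right _ (by linarith)
          linarith
        _ ≤ 1 / 2 * l ^ 2 := by nlinarith
    exact_mod_cast h2
  have hEge : E1 + E4 ≤ E := by
    have h2 : Real.exp (D * lam0) ≤ Real.exp (D * (L + lam0)) := by
      apply Real.exp_le_exp.2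
      nlinarith
    have h3 : ((E1 + E4 : ℕ) : ℝ) ≤ E := hl1.trans (h2.trans hE2)
    exact_mod_cast h3
  have hA := hA4 E z x y (by omega) hSu
  set Q := QQ x with hQ
  have hQ0 : 0 < Q := primorial_pos _
  have hQr : (0 : ℝ) < Q := by exact_mod_cast hQ0
  set Pb : ℕ → Finset ℕ := fun b => P.filter (fun i => Nat.Coprime (b + i) Q) with hPb
  set BB : Finset ℕ := (range Q).filter (fun b =>
    ((Pb b).card : ℝ) ≤ 2 * (P.card * (Nat.totient Q / Q : ℝ))) with hBB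
  have hBBc : (Q : ℝ) / 2 ≤ (BB.card : ℝ) := hCL Q P hQ0
  have hom := om_nonneg y z
  have hxpos : (0 : ℝ) < x := by linarith
  -- one class
  have hone : ∀ b ∈ BB, XI 0 x Q * Real.exp (-((E : ℝ) ^ 2)) ≤
      (((NI 0 x Q b).filter (fun n => ∀ h ∈ P, ¬ (n + h).Prime)).card : ℝ) := by
    intro b hb
    obtain ⟨hb1, hb2⟩ := Finset.mem_filter.1 hb
    have hb3 : b < Q := Finset.mem_range.1 hb1
    have hsub : Pb b ⊆ P := Finset.filter_subset _ _
    have h2 : ((Pb b).card : ℝ) * om y z ≤ c1 * (E * Real.log E) := by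
      calc ((Pb b).card : ℝ) * om y z ≤ 2 * (P.card * (Nat.totient Q / Q : ℝ)) * om y z :=
            mul_le_mul_of_nonneg_right hb2 hom
        _ = 2 * P.card * (om y z * (Nat.totient Q / Q : ℝ)) := by ring
        _ ≤ 2 * P.card * (C4 * (E / l)) :=
            mul_le_mul_of_nonneg_left hA (by positivity)
        _ ≤ 2 * (L * l) * (C4 * (E / l)) := by
            have h5 : 0 ≤ C4 * (E / l) := by positivity
            exact mul_le_mul_of_nonneg_right (by linarith) h5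
        _ = (2 * C4) * L * E := by
            have : l ≠ 0 := by linarith
            field_simp
        _ ≤ (D * c1) * L * E := by gcongr
        _ = c1 * (E * (D * L)) := by ring
        _ ≤ c1 * (E * Real.log E) := by
            have h6 : D * L ≤ Real.log E := by
              refine le_trans ?_ hE1
              nlinarith
            gcongr
    have h3 := h1 E z x y (by omega) hSx b hb3 (Pb b) (hsub.trans hP)
      ((Finset.card_le_card hsub).trans hPy) h2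
    refine h3.trans ?_
    have h4 : (NI 0 x Q b).filter (fun n => ∀ h ∈ Pb b, ¬ (n + h).Prime) ⊆
        (NI 0 x Q b).filter (fun n => ∀ h ∈ P, ¬ (n + h).Prime) := by
      intro n hn
      obtain ⟨hn1, hn2⟩ := Finset.mem_filter.1 hn
      refine Finset.mem_filter.2 ⟨hn1, fun h hh hpr => ?_⟩
      by_cases hco : Nat.Coprime (b + h) Q
      · exact hn2 h (Finset.mem_filter.2 ⟨hh, hco⟩) hpr
      · obtain ⟨p, hp, hp1, hp2⟩ := Nat.Prime.not_coprime_iff_dvd.1 hco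
        have hnb : n % Q = b := (Finset.mem_filter.1 hn1).2
        have hpn : p ∣ n + h := by
          have h5 : n = Q * (n / Q) + b := by rw [← hnb]; exact (Nat.div_add_mod n Q).symm
          rw [h5, add_assoc]
          exact (dvd_mul_of_dvd_left hp2 _).add hp1
        have h6 := (Nat.prime_dvd_prime_iff_eq hp hpr).1 hpn
        have h7 : p ≤ ⌊Real.log x / 20⌋₊ := (Nat.Prime.dvd_primorial_iff hp).1 hp2
        have h8 : (p : ℝ) ≤ Real.log x / 20 :=
          (by exact_mod_cast h7 : (p : ℝ) ≤ (⌊Real.log x / 20⌋₊ : ℝ)).trans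
            (Nat.floor_le (by linarith))
        have h9 : x ≤ h := (Finset.mem_Icc.1 (hP hh)).1
        have h10 : (x : ℝ) ≤ p := by
          rw [h6]
          exact_mod_cast (by omega : x ≤ n + h)
        linarith
    exact_mod_cast Finset.card_le_card h4
  -- sum over the classes
  have hsum : ∑ b ∈ BB, (((NI 0 x Q b).filter (fun n => ∀ h ∈ P, ¬ (n + h).Prime)).card : ℝ) ≤
      (((Ioc 0 x).filter (fun n => ∀ h ∈ P, ¬ (n + h).Prime)).card : ℝ) := by
    rw [← Nat.cast_sum, ← Finset.card_biUnion]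
    · have h2 : (BB.biUnion fun b => (NI 0 x Q b).filter (fun n => ∀ h ∈ P, ¬ (n + h).Prime)) ⊆
          (Ioc 0 x).filter (fun n => ∀ h ∈ P, ¬ (n + h).Prime) := by
        intro n hn
        obtain ⟨b, _, hn1⟩ := Finset.mem_biUnion.1 hn
        obtain ⟨hn2, hn3⟩ := Finset.mem_filter.1 hn1
        exact Finset.mem_filter.2 ⟨(Finset.mem_filter.1 hn2).1, hn3⟩
      exact_mod_cast Finset.card_le_card h2
    · intro b _ b' _ hbb
      refine Finset.disjoint_left.2 fun n hn hn' => hbb ?_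
      have h2 := (Finset.mem_filter.1 (Finset.mem_filter.1 hn).1).2
      have h3 := (Finset.mem_filter.1 (Finset.mem_filter.1 hn').1).2
      rw [← h2, ← h3]
  have hlow : (Q : ℝ) / 2 * (XI 0 x Q * Real.exp (-((E : ℝ) ^ 2))) ≤
      ∑ b ∈ BB, (((NI 0 x Q b).filter (fun n => ∀ h ∈ P, ¬ (n + h).Prime)).card : ℝ) := by
    calc (Q : ℝ) / 2 * (XI 0 x Q * Real.exp (-((E : ℝ) ^ 2)))
        ≤ BB.card * (XI 0 x Q * Real.exp (-((E : ℝ) ^ 2))) := by
          apply mul_le_mul_of_nonneg_right hBBc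
          unfold XI
          positivity
      _ = ∑ _b ∈ BB, XI 0 x Q * Real.exp (-((E : ℝ) ^ 2)) := by
          rw [Finset.sum_const, nsmul_eq_mul]
      _ ≤ _ := Finset.sum_le_sum hone
  refine le_trans ?_ (hlow.trans hsum)
  have hXI : XI 0 x Q = x / Q := by
    unfold XI
    rw [Nat.sub_zero]
  rw [hXI]
  have h2 : (Q : ℝ) / 2 * (x / Q * Real.exp (-((E : ℝ) ^ 2))) =
      x * (1 / 2 * Real.exp (-((E : ℝ) ^ 2))) := by
    field_simp
  rw [h2]
  refine mul_le_mul_of_nonneg_left ?_ hxpos.le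
  have h3 : (E : ℝ) ^ 2 ≤ 4 * Real.exp (2 * D * lam0) * Real.exp (2 * D * L) := by
    calc (E : ℝ) ^ 2 ≤ (2 * Real.exp (D * (L + lam0))) ^ 2 :=
          pow_le_pow_left₀ hEpos.le hE3 2
      _ = 4 * (Real.exp (D * (L + lam0)) * Real.exp (D * (L + lam0))) := by ring
      _ = 4 * (Real.exp (2 * D * lam0) * Real.exp (2 * D * L)) := by
          rw [← Real.exp_add, ← Real.exp_add]
          congr 2
          ring
      _ = _ := by ring
  have h4 : 1 ≤ Real.exp (2 * D * L) := Real.one_le_exp (by positivity)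
  have h5 : (1 : ℝ) / 2 = Real.exp (-(Real.log 2)) := by
    rw [Real.exp_neg, Real.exp_log (by norm_num)]
    norm_num
  rw [h5, ← Real.exp_add]
  apply Real.exp_le_exp.2
  have h6 := Real.log_two_lt_d9
  nlinarith

end Pool.Agent.Helper88.SK
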