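import Pool.Agent.Helper88.SK.Goals
import Pool.Agent.Helper22.SE.RC

/-!
# The number of rough points under the weight, points in `[1, x^κ]`

Adaptation of `Pool/Agent/Helper22/SE/RC.lean` (helper22).
-/

set_option autoImplicit false

open Finset Filter Topology

open scoped Classical

namespace Pool.Agent.Helper88.SK

open Pool.Agent.Helper88.SE (Sx Dv SD LD VD ad TD WD wd ED Dd VN GD StmtVB)
open Pool.Agent.Helper22.SE (LD_sub mem_TD card_TD prod_TD WD_eq wd_eq wd_nonneg one_le_ED card_sp
  sp_sub co co_rr)
open Pool.Agent.Helper88.PP (pr Rg om Sf SS uu vv ee LA VV QQ cost)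
open Pool.Agent.Helper88.RR (gg ab nz VM)
open Pool.Agent.Helper88.GM (NI XI gB In sp)
open Pool.Agent.Helper88.CG (qE mE)
open Pool.Agent.Helper85.RR (gg_nonneg nz_le gg_zero)
open Pool.Agent.Helper61.PP (ee_LA)
open Pool.Agent.Helper94.TU (rr rr_ne rr_zero rr_pos rr_eq_one vv_rr tot_rr max_rr nz_rr rr_injOn
  gg_succ_le LA_ne_one)

/-- Packet `RC`. -/
theorem rc (κ : ℕ) (hth : KTH κ) (hgh : KGH κ) (hvb : StmtVB) : KRC κ := by
  obtain ⟨c, hc, E1, hTH⟩ := hth
  obtain ⟨E2, hsz⟩ := Pool.Agent.Helper88.TU.size
  obtain ⟨c', hc', E3, hVP⟩ := Pool.Agent.Helper88.CG.vp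
  obtain ⟨E4, hGH⟩ := hgh
  obtain ⟨E5, hVB⟩ := hvb
  refine ⟨3, by norm_num, max (max E1 E2) (max (max E3 1) (max E4 E5)), ?_⟩
  intro E z x y hE hS u v Q b hIn P D hPn hDv
  have hE1 : E1 ≤ E := ((le_max_left _ _).trans (le_max_left _ _)).trans hE
  have hE2 : E2 ≤ E := ((le_max_right _ _).trans (le_max_left _ _)).trans hE
  have hE3 : E3 ≤ E :=
    (((le_max_left _ _).trans (le_max_left _ _)).trans (le_max_right _ _)).trans hE
  have hE1' : 1 ≤ E :=
    (((le_max_right _ _).trans (le_max_left _ _)).trans (le_max_right _ _)).trans hE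
  have hE4 : E4 ≤ E :=
    (((le_max_left _ _).trans (le_max_right _ _)).trans (le_max_right _ _)).trans hE
  have hE5 : E5 ≤ E :=
    (((le_max_right _ _).trans (le_max_right _ _)).trans (le_max_right _ _)).trans hE
  obtain ⟨a1, a2, a3, a4, a5, a6, a7, a8, a9, a10, a11, a12, a13, a14⟩ := hsz E z x y hE2 hS.1
  obtain ⟨v1, v2, v3, v4, v5, v6⟩ := hVP E hE3
  obtain ⟨v7, -⟩ := v6 z (by omega)
  have hz2 : 2 ≤ z := by omega
  obtain ⟨hPsub, hPy, hPom⟩ := id hPn
  set m := mE E with hm
  set q := qE E with hq
  set M := E / 16 with hM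
  have hq1 : 1 ≤ q := by
    rw [hq]
    exact Nat.one_le_two_pow
  have hqm : q * m ≤ M := by
    refine le_trans ?_ v2
    apply Nat.mul_le_mul_right
    exact Nat.le_self_pow (by norm_num) q
  have hK6 : (M / m + 2) ^ 6 ≤ E := by
    refine le_trans ?_ v4
    exact Nat.pow_le_pow_left (Nat.le_mul_of_pos_left _ two_pos) 6
  have hK : (M / m + 2) ^ 3 ≤ E :=
    le_trans (Nat.pow_le_pow_right (Nat.succ_pos _) (by norm_num)) hK6
  have hK2 : (M / m + 2) ^ 2 ≤ E :=
    le_trans (Nat.pow_le_pow_right (Nat.succ_pos _) (by norm_num)) hK6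
  obtain ⟨-, -, -, -, w5, -⟩ := hVB E z x y hE5 hS m q v1 hqm v7 P D hDv
  have hXI : 0 ≤ XI u v Q := by
    unfold XI
    positivity
  have hom0 : 0 ≤ om y z := by
    unfold om
    refine Finset.prod_nonneg fun p hp => ?_
    have h1 : y < p := (Finset.mem_Ioc.1 (Finset.mem_filter.1 hp).1).1
    have h2 : (0 : ℝ) < p := by exact_mod_cast (Nat.zero_le y).trans_lt h1
    have h3 : 1 / (p : ℝ) ≤ 1 := by
      rw [div_le_one h2]
      exact_mod_cast (by omega : 1 ≤ p)
    linarith
  have hED1 : 1 ≤ ED m q M z y D P := one_le_ED m q M z y D hPy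
  have hex : Real.exp (-(c * E)) ≤ 1 := by
    apply Real.exp_le_one_iff.2
    have : 0 ≤ c * E := by positivity
    linarith
  have hne1 : ∀ j : P, ∀ r ∈ TD m q M z D P, r j ≠ 1 := by
    intro j r hr
    rcases (mem_TD hr).1 j with h | h
    · omega
    · exact LA_ne_one v1 hz2 (LD_sub h)
  have habs : ∀ r ∈ LD z m (q * m) D, |(-ad m q z D r)| ≤ 2 * ab m q z r := by
    intro r hr
    rw [abs_neg, abs_of_nonneg (w5 r hr).1]
    exact (w5 r hr).2
  -- the bound for one point
  have key : ∀ j : P, ∑ n ∈ NI u v Q b,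
      (if Rg y z (n + (j : ℕ)) then 1 else 0) * WD m q M z y D P n ^ 2 ≤
      2 * (XI u v Q * (∑ r ∈ TD m q M z D P,
        (om y z + (if r j = 0 then 0 else 1)) * wd m q y z D r)) +
        om y z * XI u v Q := by
    intro j
    have hres := hTH E z x y hE1 hS u v Q b hIn m q (M / m + 2) v1 hqm v7
      hK P D hPn hDv ((TD m q M z D P).image (rr j)) (co m q z D j) ∅ {j}
      (by simp) (by simp) (by simp) ?_ ?_ ?_ ?_ ?_ ?_
    · have e1 : ∀ n, ∑ r ∈ (TD m q M z D P).image (rr j),
          co m q z D j r * ∏ i, vv y z (r i) (n + (i : ℕ)) =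
          (if Rg y z (n + (j : ℕ)) then 1 else 0) * WD m q M z y D P n := by
        intro n
        rw [Finset.sum_image (rr_injOn j (hne1 j)), WD_eq, Finset.mul_sum]
        refine Finset.sum_congr rfl fun r hr => ?_
        rw [co_rr m q z D j r (hne1 j r hr), vv_rr]
        ring
      have e2 : ∑ r ∈ (TD m q M z D P).image (rr j), co m q z D j r ^ 2 *
          (gB y z (sp r) * ∏ i, (if r i = 0 then 1 else (Nat.totient (r i) : ℝ))) ≤
          2 * ∑ r ∈ TD m q M z D P, (om y z + (if r j = 0 then 0 else 1)) * wd m q y z D r := by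
        rw [Finset.sum_image (rr_injOn j (hne1 j)), Finset.mul_sum]
        refine Finset.sum_le_sum fun r hr => ?_
        have e6 : nz r ≤ M / m := card_TD v1 hz2 hr
        have e7 : M / m ≤ M := Nat.div_le_self _ _
        have e8 : E ≤ E ^ 2 := Nat.le_self_pow (by norm_num) E
        rw [co_rr m q z D j r (hne1 j r hr), tot_rr, wd_eq]
        have e4 : (0 : ℝ) ≤ ∏ i : P, (if r i = 0 then 1 else (Nat.totient (r i) : ℝ)) := by
          refine Finset.prod_nonneg fun i _ => ?_
          split_ifs <;> positivity
        have e9 : 0 ≤ gg y z (nz r) := gg_nonneg (by omega)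
        have e5 : gg y z (nz r + (if r j = 0 then 1 else 0)) ≤
            (om y z + (if r j = 0 then 0 else 1)) * gg y z (nz r) := by
          split_ifs with h0
          · rw [add_zero]
            exact gg_succ_le (by omega)
          · rw [add_zero, add_mul, one_mul]
            have := mul_nonneg hom0 e9
            linarith
        have e14 : (sp (rr j r)).card = nz r + (if r j = 0 then 1 else 0) := by
          rw [card_sp, nz_rr]
        have e15 : (sp (rr j r)).card ≤ M / m + 2 := by
          rw [e14]
          split_ifs <;> omega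
        have e16 : gB y z (sp (rr j r)) ≤
            2 * ((om y z + (if r j = 0 then 0 else 1)) * gg y z (nz r)) := by
          obtain ⟨-, -, g3, -⟩ := hGH E z x y hE4 hS (sp (rr j r))
            ((sp_sub _).trans hPsub) ((Nat.pow_le_pow_left e15 2).trans hK2)
          rw [e14] at g3
          linarith
        calc (∏ i : P, (if r i = 0 then 1 else - ad m q z D (r i))) ^ 2 *
            (gB y z (sp (rr j r)) *
              ∏ i : P, (if r i = 0 then 1 else (Nat.totient (r i) : ℝ)))
            ≤ (∏ i : P, (if r i = 0 then 1 else - ad m q z D (r i))) ^ 2 *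
            (2 * ((om y z + (if r j = 0 then 0 else 1)) * gg y z (nz r)) *
              ∏ i : P, (if r i = 0 then 1 else (Nat.totient (r i) : ℝ))) :=
              mul_le_mul_of_nonneg_left (mul_le_mul_of_nonneg_right e16 e4) (sq_nonneg _)
          _ = _ := by ring
      have e10 : ∀ n, ((if Rg y z (n + (j : ℕ)) then (1 : ℝ) else 0) * WD m q M z y D P n) ^ 2 =
          (if Rg y z (n + (j : ℕ)) then 1 else 0) * WD m q M z y D P n ^ 2 := by
        intro n
        split_ifs <;> ring
      simp only [e1, e10] at hres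
      have e11 := (abs_le.1 hres).2
      have e12 := mul_le_mul_of_nonneg_left e2 hXI
      have e13 : Real.exp (-(c * E)) * om y z ^ ((∅ : Finset P).card + ({j} : Finset P).card) *
          XI u v Q ≤ om y z * XI u v Q := by
        rw [Finset.card_empty, Finset.card_singleton, zero_add, pow_one]
        apply mul_le_mul_of_nonneg_right _ hXI
        exact mul_le_of_le_one_left hom0 hex
      linarith
    · intro r hr i _ hiG
      obtain ⟨s, hs, rfl⟩ := Finset.mem_image.1 hr
      rw [rr_ne (fun h => hiG (Finset.mem_singleton.2 h))]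
      exact (mem_TD hs).1 i
    · intro r _ i hi
      exact absurd hi (Finset.notMem_empty i)
    · intro r hr i hi
      obtain ⟨s, hs, rfl⟩ := Finset.mem_image.1 hr
      rw [Finset.mem_singleton] at hi
      subst hi
      by_cases h0 : s i = 0
      · left
        exact rr_zero h0
      · right
        rw [rr_pos h0]
        exact ((mem_TD hs).1 i).resolve_left h0
    · intro r hr
      obtain ⟨s, hs, rfl⟩ := Finset.mem_image.1 hr
      rw [nz_rr]
      have h1 : nz s ≤ M / m := card_TD v1 hz2 hs
      split_ifs <;> omega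
    · intro r hr
      obtain ⟨s, hs, rfl⟩ := Finset.mem_image.1 hr
      rw [max_rr]
      exact (prod_TD hz2 hs).trans (Nat.pow_le_pow_right (by omega) (by omega))
    · intro r hr
      obtain ⟨s, hs, rfl⟩ := Finset.mem_image.1 hr
      unfold co
      rw [Finset.abs_prod]
      refine Finset.prod_le_prod (fun i _ => abs_nonneg _) fun i _ => ?_
      rw [if_neg (Finset.notMem_empty i)]
      by_cases hij : i = j
      · subst hij
        rw [if_pos rfl, if_pos (Finset.mem_singleton_self _)]
        by_cases h0 : s i = 0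
        · rw [if_pos (rr_zero h0), if_pos (rr_zero h0), abs_one]
        · rw [rr_pos h0, if_neg (hne1 i s hs), if_neg (hne1 i s hs)]
          exact habs _ (((mem_TD hs).1 i).resolve_left h0)
      · rw [if_neg hij, if_neg (fun h => hij (Finset.mem_singleton.1 h)), rr_ne hij]
        by_cases h0 : s i = 0
        · rw [if_pos h0, if_pos h0, abs_one]
        · rw [if_neg h0, if_neg h0]
          exact habs _ (((mem_TD hs).1 i).resolve_left h0)
  -- the sum over the points
  have hcount : ∀ n, ((P.filter (fun h => Rg y z (n + h))).card : ℝ) =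
      ∑ j : P, (if Rg y z (n + (j : ℕ)) then (1 : ℝ) else 0) := by
    intro n
    rw [Finset.card_filter, Nat.cast_sum,
      ← Finset.sum_coe_sort P (fun i => (((if Rg y z (n + i) then 1 else 0) : ℕ) : ℝ))]
    refine Finset.sum_congr rfl fun j _ => ?_
    split_ifs <;> simp
  have hsum : ∑ n ∈ NI u v Q b,
      WD m q M z y D P n ^ 2 * ((P.filter (fun h => Rg y z (n + h))).card : ℝ) =
      ∑ j : P, ∑ n ∈ NI u v Q b,
        (if Rg y z (n + (j : ℕ)) then 1 else 0) * WD m q M z y D P n ^ 2 := by
    rw [Finset.sum_comm]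
    refine Finset.sum_congr rfl fun n _ => ?_
    rw [hcount n, Finset.mul_sum]
    refine Finset.sum_congr rfl fun j _ => ?_
    rw [mul_comm]
  rw [hsum]
  have hnz : ∀ r : P → ℕ, ∑ j : P, (om y z + (if r j = 0 then (0 : ℝ) else 1)) =
      P.card * om y z + nz r := by
    intro r
    rw [Finset.sum_add_distrib, Finset.sum_const, nsmul_eq_mul, Finset.card_univ,
      Fintype.card_coe]
    congr 1
    unfold nz
    rw [Finset.card_filter, Nat.cast_sum]
    refine Finset.sum_congr rfl fun j _ => ?_
    by_cases h0 : r j = 0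
    · rw [if_pos h0, if_neg (fun h1 => h1 h0), Nat.cast_zero]
    · rw [if_neg h0, if_pos h0, Nat.cast_one]
  calc ∑ j : P, ∑ n ∈ NI u v Q b,
        (if Rg y z (n + (j : ℕ)) then 1 else 0) * WD m q M z y D P n ^ 2
      ≤ ∑ j : P, (2 * (XI u v Q * (∑ r ∈ TD m q M z D P,
          (om y z + (if r j = 0 then 0 else 1)) * wd m q y z D r)) +
          om y z * XI u v Q) := Finset.sum_le_sum fun j _ => key j
    _ = 2 * (XI u v Q * (∑ r ∈ TD m q M z D P, (P.card * om y z + nz r) * wd m q y z D r)) +
          P.card * om y z * XI u v Q := by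
        rw [Finset.sum_add_distrib, ← Finset.mul_sum, ← Finset.mul_sum, Finset.sum_comm,
          Finset.sum_const, nsmul_eq_mul, Finset.card_univ, Fintype.card_coe]
        congr 1
        · congr 2
          refine Finset.sum_congr rfl fun r _ => ?_
          rw [← Finset.sum_mul, hnz r]
        · ring
    _ ≤ 2 * (XI u v Q * ((P.card * om y z + E) * ED m q M z y D P)) +
          P.card * om y z * XI u v Q := by
        have h1 : ∑ r ∈ TD m q M z D P, (P.card * om y z + nz r) * wd m q y z D r ≤
            (P.card * om y z + E) * ED m q M z y D P := by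
          unfold ED
          rw [Finset.mul_sum]
          refine Finset.sum_le_sum fun r hr => ?_
          apply mul_le_mul_of_nonneg_right _ (wd_nonneg hPy r)
          have h2 : nz r ≤ M / m := card_TD v1 hz2 hr
          have h3 : M / m ≤ M := Nat.div_le_self _ _
          have h4 : nz r ≤ E := by omega
          have h5 : (nz r : ℝ) ≤ E := by exact_mod_cast h4
          linarith
        have h2 := mul_le_mul_of_nonneg_left h1 hXI
        linarith
    _ ≤ 3 * (XI u v Q * ED m q M z y D P) * (P.card * om y z + E) := by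
        have h1 : 0 ≤ (P.card : ℝ) * om y z := by positivity
        have h2 : (0 : ℝ) ≤ E := Nat.cast_nonneg E
        have h3 : P.card * om y z * XI u v Q ≤
            XI u v Q * ((P.card * om y z + E) * ED m q M z y D P) := by
          calc P.card * om y z * XI u v Q
              = XI u v Q * (P.card * om y z * 1) := by ring
            _ ≤ XI u v Q * ((P.card * om y z + E) * ED m q M z y D P) := by
                apply mul_le_mul_of_nonneg_left _ hXI
                exact mul_le_mul (by linarith) hED1 zero_le_one (by linarith)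
        linarith

end Pool.Agent.Helper88.SK
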