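import Pool.Agent.Helper88.SK.Goals
import Pool.Agent.Helper50.SE.SU

/-!
# A bound for the weight at an integer with few rough points, points in `[1, x^κ]`
-/

set_option autoImplicit false

open Finset Filter Topology

open scoped Classical

namespace Pool.Agent.Helper88.SK

open Pool.Agent.Helper88.SE (Sx Dv SD LD VD ad TD WD wd ED Dd VN GD StmtVB)
open Pool.Agent.Helper50.SE (LD_sub mem_TD TD_sub)
open Pool.Agent.Helper5.GM (card_large sum_label)
open Pool.Agent.Helper80.TU (sum_labels num_card num_exp)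
open Pool.Agent.Helper88.PP (pr Rg om Sf SS uu vv ee LA VV QQ cost nc dd)
open Pool.Agent.Helper88.RR (gg ab TB nz VM)
open Pool.Agent.Helper85.RR (ab_nonneg card_TB mem_TB)
open Pool.Agent.Helper3.PP (mem_SS mem_LA)

/-- numerics: the base -/
theorem num_base {l E R : ℕ} {C : ℝ} (hE : 1000 ≤ E) (hR : R ≤ E ^ 3) (hC0 : 0 < C)
    (hCE : Real.log C ≤ E) :
    1 + (R : ℝ) * (2 * (C * 2 ^ (l * E))) ≤ Real.exp ((l + 3) * E + 2) := by
  have hPE := num_card hE hR
  have h1 : C ≤ Real.exp E := by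
    rw [← Real.log_le_iff_le_exp hC0]
    exact hCE
  have h3 : (2 : ℝ) ≤ Real.exp 1 := by
    have := Real.add_one_le_exp (1 : ℝ)
    linarith
  have h2 : (2 : ℝ) ^ (l * E) ≤ Real.exp (l * E) := by
    calc (2 : ℝ) ^ (l * E) ≤ Real.exp 1 ^ (l * E) := pow_le_pow_left₀ (by norm_num) h3 _
      _ = Real.exp (l * E) := by
          rw [← Real.exp_nat_mul, mul_one]
          push_cast
          ring_nf
  have h4 : (R : ℝ) * (2 * (C * 2 ^ (l * E))) ≤ Real.exp ((l + 3) * E + 1) := by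
    calc (R : ℝ) * (2 * (C * 2 ^ (l * E)))
        ≤ Real.exp (2 * E) * (Real.exp 1 * (Real.exp E * Real.exp (l * E))) := by
          refine mul_le_mul hPE ?_ (by positivity) (Real.exp_pos _).le
          refine mul_le_mul h3 ?_ (by positivity) (Real.exp_pos _).le
          exact mul_le_mul h1 h2 (by positivity) (Real.exp_pos _).le
      _ = Real.exp ((l + 3) * E + 1) := by
          rw [← Real.exp_add, ← Real.exp_add, ← Real.exp_add]
          congr 1
          ring
  have h5 : 1 ≤ Real.exp (((l : ℝ) + 3) * E + 1) := Real.one_le_exp (by positivity)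
  have h6 : Real.exp (((l : ℝ) + 3) * E + 2) = Real.exp ((l + 3) * E + 1) * Real.exp 1 := by
    rw [← Real.exp_add]
    congr 1
    ring
  rw [h6]
  calc 1 + (R : ℝ) * (2 * (C * 2 ^ (l * E)))
      ≤ Real.exp ((l + 3) * E + 1) + Real.exp ((l + 3) * E + 1) := add_le_add h5 h4
    _ = Real.exp ((l + 3) * E + 1) * 2 := by ring
    _ ≤ Real.exp ((l + 3) * E + 1) * Real.exp 1 := mul_le_mul_of_nonneg_left h3 (Real.exp_pos _).le

/-- numerics: the end -/
theorem num_end {l E K R : ℕ} {C : ℝ} (hl : (4 * (l + 4)) ^ 2 ≤ E) (hE : 1000 ≤ E) (hR : R ≤ E ^ 3) (hC0 : 0 < C)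
    (hCE : Real.log C ≤ E) (hK : (K + 1) ^ 3 ≤ E) :
    ((1 + (R : ℝ) * (2 * (C * 2 ^ (l * E)))) ^ K) ^ 2 ≤ Real.exp ((E : ℝ) ^ 2 / 2) := by
  have hEr : (1000 : ℝ) ≤ E := by exact_mod_cast hE
  have hbase := num_base (l := l) hE hR hC0 hCE
  have hpos : 0 ≤ 1 + (R : ℝ) * (2 * (C * 2 ^ (l * E))) := by positivity
  calc ((1 + (R : ℝ) * (2 * (C * 2 ^ (l * E)))) ^ K) ^ 2
      ≤ (Real.exp ((l + 3) * E + 2) ^ K) ^ 2 :=
        pow_le_pow_left₀ (by positivity) (pow_le_pow_left₀ hpos hbase K) 2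
    _ = Real.exp (2 * (K * ((l + 3) * E + 2))) := by
        rw [← Real.exp_nat_mul, ← Real.exp_nat_mul]
        norm_num
    _ ≤ Real.exp ((E : ℝ) ^ 2 / 2) := by
        refine Real.exp_le_exp.2 ?_
        have h0 : K * (4 * (l + 4)) ≤ E := by
          rcases le_total (4 * (l + 4)) K with h | h
          · calc K * (4 * (l + 4)) ≤ K * K := Nat.mul_le_mul_left _ h
              _ ≤ (K + 1) ^ 3 := by nlinarith [Nat.zero_le (K ^ 3), Nat.zero_le K]
              _ ≤ E := hK
          · calc K * (4 * (l + 4)) ≤ (4 * (l + 4)) * (4 * (l + 4)) := Nat.mul_le_mul_right _ h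
              _ = (4 * (l + 4)) ^ 2 := by ring
              _ ≤ E := hl
        have h1 : (K : ℝ) * (4 * (l + 4)) ≤ E := by exact_mod_cast h0
        have h2 := mul_le_mul_of_nonneg_right h1 (by linarith : (0 : ℝ) ≤ E)
        have h3 : (K : ℝ) * 2 ≤ K * E :=
          mul_le_mul_of_nonneg_left (by linarith) (Nat.cast_nonneg K)
        nlinarith

theorem su (κ : ℕ) (vb : StmtVB) : KSU κ := by
  obtain ⟨C, hC1, hC⟩ := Pool.Agent.Helper31.RR.cb
  obtain ⟨E1, hsize⟩ := Pool.Agent.Helper88.TU.size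
  obtain ⟨E2, hvb⟩ := vb
  refine ⟨E1 + E2 + 1000 + ⌈C⌉₊ + ⌈Real.log C⌉₊ + (4 * (κ + 1 + 4)) ^ 2,
    fun E z x y hE hSx m q hm hqm hVV hK P D hP hD n hn hR => ?_⟩
  obtain ⟨_, _, _, _, hab, _⟩ := hvb E z x y (by omega) hSx m q hm hqm hVV P D hD
  have hSr := hSx.1
  obtain ⟨_, _, _, _, _, _, _, _, hyz, hz64, hzx, _, _, _⟩ := hsize E z x y (by omega) hSr
  obtain ⟨s1, s2, s3, s4, s5⟩ := hSr
  have hE1 : 1000 ≤ E := by omega
  have hE2 : Real.log C ≤ E := by
    refine (Nat.le_ceil _).trans ?_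
    exact_mod_cast (by omega : ⌈Real.log C⌉₊ ≤ E)
  have hEr : (1000 : ℝ) ≤ E := by exact_mod_cast hE1
  have hEz : E ≤ z := by
    have h1 : (E : ℝ) ≤ z := by
      have := Real.add_one_le_exp (E : ℝ)
      linarith
    exact_mod_cast h1
  have hz2 : 2 ≤ z := by omega
  have hC0 : 0 < C := by linarith
  set M := E / 16 with hM
  set K := M / m with hKdef
  set R : Finset P := univ.filter (fun i => Rg y z (n + (i : ℕ))) with hRdef
  have hRcard : R.card ≤ E ^ 3 := by
    refine le_trans (le_of_eq ?_) hR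
    have : (P.filter (fun h => Rg y z (n + h))) = R.map (Function.Embedding.subtype _) := by
      ext i
      simp only [hRdef, Finset.mem_map, Finset.mem_filter, Finset.mem_univ, true_and,
        Function.Embedding.coe_subtype, Subtype.exists, exists_and_left, exists_prop,
        exists_eq_right_right]
      exact and_comm
    rw [this, Finset.card_map]
  -- one point
  have hbig : 2 * x ^ (κ + 1) < (z + 1) ^ ((κ + 1) * E + 1) := by
    have h1 : x ^ (κ + 1) < ((z + 1) ^ E) ^ (κ + 1) := Nat.pow_lt_pow_left s3 (Nat.succ_ne_zero κ)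
    have h2 : (z + 1) ^ ((κ + 1) * E + 1) = ((z + 1) ^ E) ^ (κ + 1) * (z + 1) := by
      rw [pow_succ, mul_comm (κ + 1) E, pow_mul]
    rw [h2]
    calc 2 * x ^ (κ + 1) < 2 * ((z + 1) ^ E) ^ (κ + 1) := by omega
      _ = ((z + 1) ^ E) ^ (κ + 1) * 2 := Nat.mul_comm _ _
      _ ≤ ((z + 1) ^ E) ^ (κ + 1) * (z + 1) := Nat.mul_le_mul_left _ (by omega)
  have hS : ∀ i : P, ∑ s ∈ LD z m (q * m) D, ad m q z D s * |vv y z s (n + (i : ℕ))| ≤
      2 * (C * 2 ^ ((κ + 1) * E)) := by
    intro i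
    have hi := Finset.mem_Icc.1 (hP i.2)
    have h0 : ∑ s ∈ LA z m (q * m), ab m q z s * |vv y z s (n + (i : ℕ))| ≤ C * 2 ^ ((κ + 1) * E) := by
      refine sum_label (fun d hd => ?_) (by linarith) (by omega) (card_large (by omega) ?_)
      · exact (hC m q (q * m) z hm hz2 (by omega) hVV d hd).1
      · have h1 : x ≤ x ^ (κ + 1) := Nat.le_self_pow (Nat.succ_ne_zero κ) x
        have h2 : x ^ κ ≤ x ^ (κ + 1) := Nat.pow_le_pow_right (by omega) (Nat.le_succ κ)
        omega
    calc ∑ s ∈ LD z m (q * m) D, ad m q z D s * |vv y z s (n + (i : ℕ))|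
        ≤ ∑ s ∈ LD z m (q * m) D, 2 * (ab m q z s * |vv y z s (n + (i : ℕ))|) := by
          refine Finset.sum_le_sum fun s hs => ?_
          rw [← mul_assoc]
          exact mul_le_mul_of_nonneg_right (hab s hs).2 (abs_nonneg _)
      _ ≤ ∑ s ∈ LA z m (q * m), 2 * (ab m q z s * |vv y z s (n + (i : ℕ))|) := by
          refine Finset.sum_le_sum_of_subset_of_nonneg (fun s hs => LD_sub hs) fun s _ _ => ?_
          exact mul_nonneg (by norm_num) (mul_nonneg (ab_nonneg _ _ _ _) (abs_nonneg _))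
      _ = 2 * ∑ s ∈ LA z m (q * m), ab m q z s * |vv y z s (n + (i : ℕ))| := by
          rw [Finset.mul_sum]
      _ ≤ 2 * (C * 2 ^ ((κ + 1) * E)) := by linarith
  -- the sum
  have hW : |WD m q M z y D P n| ≤ (1 + R.card * (2 * (C * 2 ^ ((κ + 1) * E)))) ^ K := by
    unfold WD
    refine (Finset.abs_sum_le_sum_abs _ _).trans ?_
    have h1 : ∀ r ∈ TD m q M z D P,
        |∏ i : P, ((if r i = 0 then 1 else - ad m q z D (r i)) * vv y z (r i) (n + (i : ℕ)))| =
        ∏ i : P, (fun (i : P) (s : ℕ) => if s = 0 then (1 : ℝ) else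
          |ad m q z D s| * |vv y z s (n + (i : ℕ))|) i (r i) := by
      intro r _
      rw [Finset.abs_prod]
      refine Finset.prod_congr rfl fun i _ => ?_
      simp only
      split_ifs with h0
      · rw [h0, one_mul]
        unfold vv
        rw [if_pos rfl, abs_one]
      · rw [abs_mul, abs_neg]
    rw [Finset.sum_congr rfl h1]
    have hne : ∀ s ∈ LD z m (q * m) D, s ≠ 0 := by
      intro s hs
      have := (mem_SS.1 (mem_LA.1 (LD_sub hs)).1).1.1
      omega
    refine sum_labels (L := LD z m (q * m) D) (TD m q M z D P) K (2 * (C * 2 ^ ((κ + 1) * E))) R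
      (fun (i : P) (s : ℕ) => if s = 0 then (1 : ℝ) else
        |ad m q z D s| * |vv y z s (n + (i : ℕ))|)
      (by positivity) (fun r hr => (mem_TD hr).1) (fun r hr => card_TB hm hz2 (TD_sub hr))
      (fun i => if_pos rfl) (fun i s => ?_) (fun i _ => ?_) (fun i hi s hs => ?_)
    · split_ifs
      · exact zero_le_one
      · exact mul_nonneg (abs_nonneg _) (abs_nonneg _)
    · refine le_trans (le_of_eq ?_) (hS i)
      refine Finset.sum_congr rfl fun s hs => ?_
      rw [if_neg (hne s hs), abs_of_nonneg (hab s hs).1]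
    · have h0 := hne s hs
      have h2 : ¬ Rg y z (n + (i : ℕ)) := by
        intro h3
        exact hi (Finset.mem_filter.2 ⟨Finset.mem_univ _, h3⟩)
      rw [if_neg h0]
      unfold vv
      rw [if_neg h0, if_neg h2, abs_zero, mul_zero]
  calc WD m q M z y D P n ^ 2 = |WD m q M z y D P n| ^ 2 := (sq_abs _).symm
    _ ≤ ((1 + (R.card : ℝ) * (2 * (C * 2 ^ ((κ + 1) * E)))) ^ K) ^ 2 :=
        pow_le_pow_left₀ (abs_nonneg _) hW 2
    _ ≤ Real.exp ((E : ℝ) ^ 2 / 2) := num_end (l := κ + 1) (by omega) hE1 hRcard hC0 hE2 hK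

end Pool.Agent.Helper88.SK
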