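import Pool.Agent.Helper88.SK.Goals
import Pool.Agent.Helper98.SE.TH

/-! # The second moment of a function given by labels prime to `D`, for points in `[1, x^κ]` -/

set_option autoImplicit false

open Finset Filter Topology

open scoped Classical

namespace Pool.Agent.Helper88.SK

open Pool.Agent.Helper88.PP (pr Rg om Sf SS uu vv ee LA VV QQ cost nc dd)

open Pool.Agent.Helper88.RR (gg ab nz VM)

open Pool.Agent.Helper88.GM (In NI XI gB sp)

open Pool.Agent.Helper88.TU (size)

open Pool.Agent.Helper88.SE (Sx Dv SD LD VD ad TD WD wd ED Dd VN GD StmtTR)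

open Pool.Agent.Helper98.SE (gB_empty tlx)

open Pool.Agent.Helper77.RR (VM_nonneg ab_nonneg)

open Pool.Agent.Helper3.PP (om_nonneg mem_SS mem_LA LA_sub sumBB)

open Pool.Agent.Helper49.GM (XI_nonneg)

open Pool.Agent.Helper16.TU (expo4)

theorem th (κ : ℕ) (h2 : StmtTR) (h1 : KTK) (h0 : KGH κ) : KTH κ := by
  have h3 : Pool.Agent.Helper88.RR.StmtCB := Pool.Agent.Helper31.RR.cb
  obtain ⟨Es, hsize⟩ := size
  obtain ⟨Eg, hsgg⟩ := h0
  obtain ⟨c, hc, ETL, hTL⟩ := h1
  obtain ⟨_, C', _, hC', h4⟩ := Pool.Agent.Helper24.PP.ma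
  obtain ⟨C, hC, hCB⟩ := h3
  set C2 : ℝ := 2 * C + 1 with hC2
  have hC2C : 2 * C ≤ C2 := by rw [hC2]; linarith
  have hC21 : 1 ≤ C2 := by linarith
  set c0 : ℝ := min c 1 / 2 with hc0
  have hc0p : 0 < c0 := by
    rw [hc0]
    have := lt_min hc one_pos
    linarith
  have hc1 : 2 * c0 ≤ c := by
    rw [hc0]
    have := min_le_left c 1
    linarith
  have hc2 : 2 * c0 ≤ 1 := by
    rw [hc0]
    have := min_le_right c 1
    linarith
  obtain ⟨Ee, hEe⟩ := expo4 c0 (2 * (3 * C2 ^ 2 * C' ^ 3)) hc0p (by positivity)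
  refine ⟨c0, hc0p, max ETL (max Ee (max 64 (max Es Eg))),
    fun E z x y hE hS u v Q b hIn m q K hm hqm hV hK P D hPn hDv
    T cc F G0 hF hG0c hFG hT1 hT2 hT2' hT3 hT4 hT5 => ?_⟩
  obtain ⟨hPy, -, hPA⟩ := hPn
  obtain ⟨-, hDP, -⟩ := hDv
  have hE1 : ETL ≤ E := (le_max_left _ _).trans hE
  have hE3 : Ee ≤ E := ((le_max_left _ _).trans (le_max_right _ _)).trans hE
  have hE4 : 64 ≤ E := ((le_max_left _ _).trans ((le_max_right _ _).trans (le_max_right _ _))).trans hE
  have hE5 : Es ≤ E := ((le_max_left _ _).trans ((le_max_right _ _).trans ((le_max_right _ _).trans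
    (le_max_right _ _)))).trans hE
  have hE6 : Eg ≤ E := ((le_max_right _ _).trans ((le_max_right _ _).trans ((le_max_right _ _).trans
    (le_max_right _ _)))).trans hE
  have hM1 : 1 ≤ E / 16 := by omega
  have hEpos : (64 : ℝ) ≤ E := by exact_mod_cast hE4
  have hTL := hTL E z x y hE1 hS u v Q b hIn
  have hGH := hsgg E z x y hE6 hS
  -- `z`
  have hzE : Real.exp E ≤ z := hS.1.1
  have hzE' : (E : ℝ) + 1 ≤ z := (Real.add_one_le_exp _).trans hzE
  have hzE2 : E + 1 ≤ z := by exact_mod_cast hzE'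
  have hz3 : 2 ≤ z := by omega
  have hz0 : 1 ≤ z := by omega
  have hzp : (0 : ℝ) < z := by linarith
  have hK2 : (2 * K) ^ 2 ≤ E := by
    rcases le_total 4 K with h | h
    · calc (2 * K) ^ 2 = 4 * K ^ 2 := by ring
        _ ≤ K * K ^ 2 := Nat.mul_le_mul_right _ h
        _ = K ^ 3 := by ring
        _ ≤ E := hK
    · have h5 : K ^ 2 ≤ 4 ^ 2 := Nat.pow_le_pow_left h 2
      calc (2 * K) ^ 2 = 4 * K ^ 2 := by ring
        _ ≤ 4 * 4 ^ 2 := Nat.mul_le_mul_left _ h5
        _ ≤ E := by omega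
  have ho := om_nonneg y z
  have hgBn : ∀ B : Finset ℕ, B ⊆ Icc 1 (x ^ κ) → B.card ≤ 2 * K →
      0 ≤ gB y z B ∧ gB y z B ≤ (2 * om y z) ^ B.card := by
    intro B hB hk
    obtain ⟨g1, g2, g3, g4⟩ := hGH B hB ((Nat.pow_le_pow_left hk 2).trans hK2)
    refine ⟨g1.le.trans g2, ?_⟩
    rcases Finset.eq_empty_or_nonempty B with h5 | h5
    · rw [h5, gB_empty, Finset.card_empty, pow_zero]
    · have h6 : 1 ≤ B.card := Finset.card_pos.mpr h5
      calc gB y z B ≤ 2 * gg y z B.card := g3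
        _ ≤ 2 * om y z ^ B.card := by linarith
        _ ≤ 2 ^ B.card * om y z ^ B.card := by
            refine mul_le_mul_of_nonneg_right ?_ (by positivity)
            calc (2 : ℝ) = 2 ^ 1 := by norm_num
              _ ≤ 2 ^ B.card := pow_le_pow_right₀ (by norm_num) h6
        _ = (2 * om y z) ^ B.card := by rw [mul_pow]
  have hinj : Function.Injective (fun i : P => (i : ℕ)) := Subtype.val_injective
  have hgg : ∀ B : Finset P, B.card ≤ 2 * K →
      0 ≤ gB y z (B.image (fun i : P => (i : ℕ))) ∧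
        gB y z (B.image (fun i : P => (i : ℕ))) ≤ (2 * om y z) ^ B.card := by
    intro B hB
    have hcard : (B.image (fun i : P => (i : ℕ))).card = B.card :=
      Finset.card_image_of_injective B hinj
    have h5 := hgBn (B.image (fun i : P => (i : ℕ))) (by
        intro i hi
        obtain ⟨j, _, rfl⟩ := Finset.mem_image.mp hi
        exact hPy j.2) (by rw [hcard]; exact hB)
    rw [hcard] at h5
    exact h5
  have hMz : E / 16 ≤ z := by omega
  have hCBa := hCB m q (E / 16) z hm hz3 hMz hV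
  have hKsq : (36 : ℝ) * (K : ℝ) ^ 2 ≤ 36 * E := by
    have h5 : (K : ℝ) ^ 2 ≤ E := by
      have : K ^ 2 ≤ E := by nlinarith
      exact_mod_cast this
    linarith
  -- constants
  set Lam : ℝ := 2 * (3 * C2 ^ 2 * (C' * ((2 * (E / 16) : ℕ) : ℝ)) ^ 3) with hLam
  have hLam0 : 0 ≤ Lam := by positivity
  have hLamE : Lam ≤ 2 * (3 * C2 ^ 2 * C' ^ 3) * (E : ℝ) ^ 3 := by
    rw [hLam]
    have h5 : ((2 * (E / 16) : ℕ) : ℝ) ≤ E := by
      have : 2 * (E / 16) ≤ E := by omega
      exact_mod_cast this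
    calc 2 * (3 * C2 ^ 2 * (C' * ((2 * (E / 16) : ℕ) : ℝ)) ^ 3)
        ≤ 2 * (3 * C2 ^ 2 * (C' * (E : ℝ)) ^ 3) := by
          gcongr
      _ = 2 * (3 * C2 ^ 2 * C' ^ 3) * (E : ℝ) ^ 3 := by ring
  set G : ℝ := (1 + Lam) ^ 4 * (1 + (E : ℝ) ^ 2 * Lam) ^ (2 * K) with hG
  have hG0 : 0 ≤ G := by positivity
  have hGE : (1 + 36 * (E : ℝ)) * G ≤ Real.exp (c0 * E) := by
    refine le_trans ?_ (hEe E K hE3 hK)
    rw [hG]
    gcongr
  have hfin : (Real.exp (-(c * E)) + 9 * ((2 * K : ℕ) : ℝ) ^ 2 / z) * G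
      ≤ Real.exp (-(c0 * E)) := by
    have h5 : Real.exp (-(c * E)) ≤ Real.exp (-(2 * c0 * E)) := by
      refine Real.exp_le_exp.mpr ?_
      have := mul_le_mul_of_nonneg_right hc1 (by linarith : (0 : ℝ) ≤ E)
      linarith
    have h6 : 9 * ((2 * K : ℕ) : ℝ) ^ 2 / z ≤ 36 * E * Real.exp (-(2 * c0 * E)) := by
      have h7 : 9 * ((2 * K : ℕ) : ℝ) ^ 2 = 36 * (K : ℝ) ^ 2 := by
        push_cast
        ring
      rw [h7, div_le_iff₀ hzp]
      have h8 : (1 : ℝ) ≤ Real.exp (-(2 * c0 * E)) * z := by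
        calc (1 : ℝ) = Real.exp (-(E : ℝ)) * Real.exp E := by
              rw [← Real.exp_add, neg_add_cancel, Real.exp_zero]
          _ ≤ Real.exp (-(2 * c0 * E)) * z := by
              refine mul_le_mul ?_ hzE (Real.exp_pos _).le (Real.exp_pos _).le
              refine Real.exp_le_exp.mpr ?_
              have := mul_le_mul_of_nonneg_right hc2 (by linarith : (0 : ℝ) ≤ E)
              linarith
      calc 36 * (K : ℝ) ^ 2 ≤ 36 * E := hKsq
        _ = 36 * E * 1 := by ring
        _ ≤ 36 * E * (Real.exp (-(2 * c0 * E)) * z) :=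
            mul_le_mul_of_nonneg_left h8 (by positivity)
        _ = 36 * E * Real.exp (-(2 * c0 * E)) * z := by ring
    calc (Real.exp (-(c * E)) + 9 * ((2 * K : ℕ) : ℝ) ^ 2 / z) * G
        ≤ (Real.exp (-(2 * c0 * E)) + 36 * E * Real.exp (-(2 * c0 * E))) * G :=
          mul_le_mul_of_nonneg_right (add_le_add h5 h6) hG0
      _ = Real.exp (-(2 * c0 * E)) * ((1 + 36 * (E : ℝ)) * G) := by ring
      _ ≤ Real.exp (-(2 * c0 * E)) * Real.exp (c0 * E) :=
          mul_le_mul_of_nonneg_left hGE (Real.exp_pos _).le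
      _ = Real.exp (-(c0 * E)) := by
          rw [← Real.exp_add]
          congr 1
          ring
  -- the sets
  set al : P → ℕ → ℝ := fun i r =>
    if i ∈ F then (if r ∈ SS z (z ^ (E / 16)) then 2 / (VM (E / 16) z * (Nat.totient r : ℝ)) else 0)
    else if i ∈ G0 then (if r = 1 then 1 else if r ∈ LA z m (q * m) then 2 * ab m q z r else 0)
    else (if r = 0 then 1 else if r ∈ LA z m (q * m) then 2 * ab m q z r else 0) with hal
  set BB : Finset (Finset P) :=
    (univ : Finset (Finset P)).filter (fun B => F ∪ G0 ⊆ B ∧ B.card ≤ 2 * K) with hBB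
  have hSS0 : ∀ r, r ∈ SS z (z ^ (E / 16)) → r ≠ 0 := by
    intro r hr
    have := (mem_SS.mp hr).1.1
    omega
  have hSDm : ∀ r, r ∈ SD z (z ^ (E / 16)) D → r ∈ SS z (z ^ (E / 16)) := by
    intro r hr
    exact (Finset.mem_filter.mp hr).1
  have hLDm : ∀ r, r ∈ LD z m (q * m) D → r ∈ LA z m (q * m) := by
    intro r hr
    exact (Finset.mem_filter.mp hr).1
  have hLDS : ∀ r, r ∈ LD z m (q * m) D → r ∈ SD z (z ^ (E / 16)) D := by
    intro r hr
    refine Finset.mem_filter.mpr ⟨?_, (Finset.mem_filter.mp hr).2⟩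
    exact LA_sub hz0 hqm (hLDm r hr)
  have hLA0 : ∀ r, r ∈ LA z m (q * m) → r ≠ 0 := fun r hr =>
    hSS0 r (LA_sub hz0 hqm hr)
  have hLA1 : ∀ r, r ∈ LA z m (q * m) → r ≠ 1 := by
    intro r hr h5
    have h6 := (mem_LA.mp hr).2
    have h7 : z ^ 1 ≤ z ^ m := Nat.pow_le_pow_right hz0 hm
    rw [pow_one] at h7
    omega
  have hone : 1 ∈ SS z (z ^ (E / 16)) := by
    rw [mem_SS]
    refine ⟨⟨le_rfl, ?_⟩, ?_⟩
    · exact Nat.one_lt_pow (by omega) (by omega)
    · refine ⟨squarefree_one, ?_⟩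
      intro p hp hp1
      exact absurd (Nat.dvd_one.mp hp1) hp.one_lt.ne'
  have hlab : ∀ r ∈ T, ∀ i, r i = 0 ∨ r i ∈ SD z (z ^ (E / 16)) D := by
    intro r hr i
    by_cases hi : i ∈ F
    · exact Or.inr (hT2 r hr i hi)
    · by_cases hi' : i ∈ G0
      · rcases hT2' r hr i hi' with h5 | h5
        · rw [h5]
          exact Or.inr (Finset.mem_filter.mpr ⟨hone, Nat.coprime_one_left D⟩)
        · exact Or.inr (hLDS _ h5)
      · rcases hT1 r hr i hi hi' with h5 | h5
        · exact Or.inl h5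
        · exact Or.inr (hLDS _ h5)
  have hnzFG : ∀ r ∈ T, ∀ i ∈ F ∪ G0, r i ≠ 0 := by
    intro r hr i hi
    rcases Finset.mem_union.mp hi with hi | hi
    · exact hSS0 _ (hSDm _ (hT2 r hr i hi))
    · rcases hT2' r hr i hi with h5 | h5
      · omega
      · exact hLA0 _ (hLDm _ h5)
  have hV1 := VM_nonneg (E / 16) z
  have hXI := XI_nonneg u v Q
  have hab0 : ∀ r, 0 ≤ ab m q z r := fun r => ab_nonneg m q z r
  have hFGc : (F ∪ G0).card = F.card + G0.card := Finset.card_union_of_disjoint hFG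
  have key := h2 P (fun i => (i : ℕ)) y z (z ^ (E / 16)) (z ^ (E / 4)) (2 * K) D (NI u v Q b)
    (XI u v Q) (2 * om y z) (Real.exp (-(c * E))) C2
    (fun B : Finset P => gB y z (B.image (fun i : P => (i : ℕ)))) T cc al BB hz3 hXI
    (by positivity) (Real.exp_pos _).le hC21 (fun B hB => hgg B (by
      rw [hBB, Finset.mem_filter] at hB
      exact hB.2.2)) hlab ?_ ?_ ?_ ?_ ?_ ?_ ?_ ?_ ?_
  · have key' : |∑ n ∈ NI u v Q b, (∑ r ∈ T, cc r * ∏ i, vv y z (r i) (n + (i : ℕ))) ^ 2
        - XI u v Q * ∑ r ∈ T, cc r ^ 2 *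
          (gB y z (sp r) * ∏ i, (if r i = 0 then 1 else (Nat.totient (r i) : ℝ)))|
        ≤ XI u v Q * (Real.exp (-(c * E)) + 9 * ((2 * K : ℕ) : ℝ) ^ 2 / z) *
          ∑ B ∈ BB, (2 * om y z * (3 * C2 ^ 2 * ∑ e ∈ SS z ((z ^ (E / 16)) ^ 2),
            (3 : ℝ) ^ e.primeFactors.card / e)) ^ B.card := key
    refine key'.trans ?_
    have hX2 : (z ^ (E / 16)) ^ 2 = z ^ (2 * (E / 16)) := by rw [← pow_mul, mul_comm]
    have hMA := (h4 z (2 * (E / 16)) hz3 (by omega)).2.2
    rw [← hX2] at hMA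
    set w : ℝ := 3 * C2 ^ 2 * ∑ e ∈ SS z ((z ^ (E / 16)) ^ 2), (3 : ℝ) ^ e.primeFactors.card / e
      with hw
    have hw0 : 0 ≤ w := by positivity
    have hwL : 2 * w ≤ Lam := by
      rw [hw, hLam]
      have h5 := mul_le_mul_of_nonneg_left hMA (by positivity : (0 : ℝ) ≤ 3 * C2 ^ 2)
      linarith
    have hsum := sumBB (F ∪ G0) (2 * K) (2 * om y z * w) (by positivity)
    have hnu : (Fintype.card P : ℝ) * (2 * om y z * w) ≤ (E : ℝ) ^ 2 * Lam := by
      rw [Fintype.card_coe]
      calc (P.card : ℝ) * (2 * om y z * w) = (P.card : ℝ) * om y z * (2 * w) := by ring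
        _ ≤ (E : ℝ) ^ 2 * Lam := mul_le_mul hPA hwL (by positivity) (by positivity)
    have hsum2 : ∑ B ∈ BB, (2 * om y z * w) ^ B.card ≤ om y z ^ (F.card + G0.card) * G := by
      refine hsum.trans ?_
      have h8 : 2 * om y z * w = om y z * (2 * w) := by ring
      rw [hG, hFGc]
      have h9 : (2 * om y z * w) ^ (F.card + G0.card) =
          om y z ^ (F.card + G0.card) * (2 * w) ^ (F.card + G0.card) := by
        rw [h8, mul_pow]
      rw [h9, mul_assoc]
      refine mul_le_mul_of_nonneg_left ?_ (by positivity)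
      refine mul_le_mul ?_ ?_ (by positivity) (by positivity)
      · calc (2 * w) ^ (F.card + G0.card) ≤ (1 + Lam) ^ (F.card + G0.card) :=
              pow_le_pow_left₀ (by positivity) (by linarith) _
          _ ≤ (1 + Lam) ^ 4 := pow_le_pow_right₀ (by linarith) (by omega)
      · exact pow_le_pow_left₀ (by positivity) (by linarith) _
    have hδ : 0 ≤ Real.exp (-(c * E)) + 9 * ((2 * K : ℕ) : ℝ) ^ 2 / z := by positivity
    calc XI u v Q * (Real.exp (-(c * E)) + 9 * ((2 * K : ℕ) : ℝ) ^ 2 / z) *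
          ∑ B ∈ BB, (2 * om y z * w) ^ B.card
        ≤ XI u v Q * (Real.exp (-(c * E)) + 9 * ((2 * K : ℕ) : ℝ) ^ 2 / z) *
          (om y z ^ (F.card + G0.card) * G) :=
          mul_le_mul_of_nonneg_left hsum2 (mul_nonneg hXI hδ)
      _ = ((Real.exp (-(c * E)) + 9 * ((2 * K : ℕ) : ℝ) ^ 2 / z) * G) *
          (om y z ^ (F.card + G0.card) * XI u v Q) := by ring
      _ ≤ Real.exp (-(c0 * E)) * (om y z ^ (F.card + G0.card) * XI u v Q) :=
          mul_le_mul_of_nonneg_right hfin (mul_nonneg (by positivity) hXI)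
      _ = Real.exp (-(c0 * E)) * om y z ^ (F.card + G0.card) * XI u v Q := by ring
  · -- a label `1` only occurs on `F` and `G0`
    intro r hr s hs i hi
    by_cases hiF : i ∈ F
    · exact hnzFG s hs i (Finset.mem_union_left _ hiF)
    · by_cases hiG : i ∈ G0
      · exact hnzFG s hs i (Finset.mem_union_right _ hiG)
      · exfalso
        rcases hT1 r hr i hiF hiG with h5 | h5
        · omega
        · exact hLA1 _ (hLDm _ h5) hi
  · -- size
    intro r hr
    calc (∏ i, max 1 (r i)) ^ 2 ≤ (z ^ (2 * (E / 16))) ^ 2 := Nat.pow_le_pow_left (hT4 r hr) 2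
      _ = z ^ (2 * (E / 16) * 2) := by rw [← pow_mul]
      _ ≤ z ^ (E / 4) := Nat.pow_le_pow_right hz0 (by omega)
  · -- supports
    intro r hr s hs
    rw [hBB, Finset.mem_filter]
    refine ⟨Finset.mem_univ _, ?_, ?_⟩
    · intro i hi
      rw [Finset.mem_filter]
      exact ⟨Finset.mem_univ _, Or.inl (hnzFG r hr i hi)⟩
    · rw [Finset.filter_or]
      refine (Finset.card_union_le _ _).trans ?_
      have h5 := hT3 r hr
      have h6 := hT3 s hs
      unfold nz at h5 h6
      omega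
  · intro B hB
    rw [hBB, Finset.mem_filter] at hB
    exact hB.2.2
  · -- nonnegativity
    intro i r
    rw [hal]
    have h5 := hab0 r
    simp only
    split_ifs <;> positivity
  · intro i
    rw [hal]
    simp only
    by_cases hi : i ∈ F
    · rw [if_pos hi, if_neg (fun h5 => hSS0 0 h5 rfl)]
      norm_num
    · rw [if_neg hi]
      by_cases hi' : i ∈ G0
      · rw [if_pos hi', if_neg (by norm_num), if_neg (fun h5 => hLA0 0 h5 rfl)]
        norm_num
      · rw [if_neg hi']
        simp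
  · -- the coefficients
    intro r hr
    refine (hT5 r hr).trans (le_of_eq (Finset.prod_congr rfl fun i _ => ?_))
    rw [hal]
    simp only
    by_cases hi : i ∈ F
    · rw [if_pos hi, if_pos hi, if_pos (hSDm _ (hT2 r hr i hi))]
    · rw [if_neg hi, if_neg hi]
      by_cases hi' : i ∈ G0
      · rw [if_pos hi', if_pos hi']
        rcases hT2' r hr i hi' with h5 | h5
        · rw [if_pos h5, if_pos h5]
        · have h5' := hLDm _ h5
          rw [if_neg (hLA1 _ h5'), if_neg (hLA1 _ h5'), if_pos h5']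
      · rw [if_neg hi', if_neg hi']
        rcases hT1 r hr i hi hi' with h5 | h5
        · rw [if_pos h5, if_pos h5]
        · have h5' := hLDm _ h5
          rw [if_neg (hLA0 _ h5'), if_neg (hLA0 _ h5'), if_pos h5']
  · -- divisor sums
    intro i d hd
    obtain ⟨hc1, hc2⟩ := hCBa d hd
    have hLAsum : ∑ r ∈ (SS z (z ^ (E / 16))).filter (fun r => d ∣ r),
        (if r ∈ LA z m (q * m) then 2 * ab m q z r else 0)
        = 2 * ∑ r ∈ (LA z m (q * m)).filter (fun r => d ∣ r), ab m q z r := by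
      rw [← Finset.sum_filter, Finset.mul_sum]
      refine Finset.sum_congr ?_ fun _ _ => rfl
      ext r
      simp only [Finset.mem_filter]
      constructor
      · rintro ⟨⟨_, h7⟩, h8⟩
        exact ⟨h8, h7⟩
      · rintro ⟨h7, h8⟩
        exact ⟨⟨LA_sub hz0 hqm h7, h8⟩, h7⟩
    have hLA2 : (d : ℝ) * (2 * ∑ r ∈ (LA z m (q * m)).filter (fun r => d ∣ r), ab m q z r)
        ≤ 2 * C := by
      linarith
    by_cases hi : i ∈ F
    · refine le_trans ?_ hC2C
      have h5 : ∑ r ∈ (SS z (z ^ (E / 16))).filter (fun r => d ∣ r), al i r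
          = 2 / VM (E / 16) z * ∑ r ∈ (SS z (z ^ (E / 16))).filter (fun r => d ∣ r),
            1 / (Nat.totient r : ℝ) := by
        rw [Finset.mul_sum]
        refine Finset.sum_congr rfl fun r hr => ?_
        rw [hal]
        simp only
        rw [if_pos hi, if_pos (Finset.mem_filter.mp hr).1, div_mul_div_comm, mul_one]
      rw [h5]
      have h6 : ∑ r ∈ SS z (z ^ (E / 16)), 1 / (Nat.totient r : ℝ) = VM (E / 16) z := rfl
      rw [h6] at hc2
      rcases hV1.eq_or_lt with h7 | h7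
      · rw [← h7]
        simp
        linarith
      · calc (d : ℝ) * (2 / VM (E / 16) z * ∑ r ∈ (SS z (z ^ (E / 16))).filter (fun r => d ∣ r),
            1 / (Nat.totient r : ℝ))
            = 2 * ((d : ℝ) * ∑ r ∈ (SS z (z ^ (E / 16))).filter (fun r => d ∣ r),
            1 / (Nat.totient r : ℝ)) / VM (E / 16) z := by ring
          _ ≤ 2 * (C * VM (E / 16) z) / VM (E / 16) z := by gcongr
          _ = 2 * C := by field_simp
    · by_cases hi' : i ∈ G0
      · have h6 : ∀ r ∈ (SS z (z ^ (E / 16))).filter (fun r => d ∣ r), al i r =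
            (if r = 1 then 1 else 0) + (if r ∈ LA z m (q * m) then 2 * ab m q z r else 0) := by
          intro r hr
          rw [hal]
          simp only
          rw [if_neg hi, if_pos hi']
          by_cases h7 : r = 1
          · rw [if_pos h7, if_pos h7, if_neg (fun h8 => hLA1 r h8 h7), add_zero]
          · rw [if_neg h7, if_neg h7, zero_add]
        rw [Finset.sum_congr rfl h6, Finset.sum_add_distrib, hLAsum, mul_add, hC2, add_comm]
        refine add_le_add hLA2 ?_
        by_cases hd1 : d = 1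
        · subst hd1
          rw [Finset.sum_ite_eq' _ 1 (fun _ => (1 : ℝ))]
          split_ifs <;> norm_num
        · have h7 : ∑ r ∈ (SS z (z ^ (E / 16))).filter (fun r => d ∣ r),
              (if r = 1 then (1 : ℝ) else 0) = 0 := by
            refine Finset.sum_eq_zero fun r hr => ?_
            rw [if_neg]
            rintro rfl
            exact hd1 (Nat.dvd_one.mp (Finset.mem_filter.mp hr).2)
          rw [h7, mul_zero]
          norm_num
      · refine le_trans ?_ hC2C
        refine le_of_eq_of_le ?_ hLA2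
        congr 1
        rw [← hLAsum]
        refine Finset.sum_congr rfl ?_
        intro r hr
        rw [hal]
        simp only
        rw [if_neg hi, if_neg hi', if_neg (hSS0 r (Finset.mem_filter.mp hr).1)]
  · -- counting
    intro d hd hD hdB
    rw [hBB, Finset.mem_filter] at hdB
    refine tlx (Real.exp_pos _).le hXI (by positivity) hPy hDP (fun B hB hBK d hd hdc hD => ?_)
      d hd hD hdB.2.2 (fun B hB hBK => (hgBn B hB hBK).2)
    exact hTL B ((Nat.pow_le_pow_left hBK 2).trans hK2) d hd hdc hD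

end Pool.Agent.Helper88.SK
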