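import Pool.Agent.Helper88.SK.Goals
import Pool.Agent.Helper33.SE.TK

/-! # Counting with the Brun-Hooley sieve, arbitrary points of any size -/

set_option autoImplicit false

open Finset Filter Topology

open scoped Classical

namespace Pool.Agent.Helper88.SK

open Pool.Agent.Helper88.SE (Sx StmtBK)
open Pool.Agent.Helper33.SE (ka ka_le gg_le_gB count_hit sum_hit)
open Pool.Agent.Helper88.PP (pr Rg om Sf SS uu vv ee LA VV QQ XX cost)
open Pool.Agent.Helper88.RR (gg)
open Pool.Agent.Helper88.GM (NI XI In gB)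
open Pool.Agent.Helper88.TU (Su AA AX Ut EF hit size size_gg)
open Pool.Agent.Helper74.PP (sw crt ap_exists M_lower)
open Pool.Agent.Helper64.RR (mem_pr)
open Pool.Agent.Helper8.GM (XX_le_XI sum_swg)
open Pool.Agent.Helper6.RR (per_bound prod_per)
open Pool.Agent.Helper51.TU (hit_sub hit_empty prod_sw_hit FF sum_pow_le final)

/-- **TK** (counting). -/
theorem tk (hBK : StmtBK) : KTK := by
  obtain ⟨E0, h0⟩ := hBK
  obtain ⟨E1, h1⟩ := Pool.Agent.Helper57.TU.bm
  obtain ⟨E2, h2⟩ := size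
  obtain ⟨E3, h3⟩ := size_gg (1 / 10) (by norm_num)
  refine ⟨1 / 2, by norm_num, max (max E0 E1) (max E2 (max E3 2000)),
    fun E z x y hE hSx u v Q b hIn B hBk d hd hcop hdD => ?_⟩
  have hE0 : E0 ≤ E := (le_max_left _ _).trans ((le_max_left _ _).trans hE)
  have hE1 : E1 ≤ E := (le_max_right _ _).trans ((le_max_left _ _).trans hE)
  have hE2 : E2 ≤ E := (le_max_left _ _).trans ((le_max_right _ _).trans hE)
  have hE3 : E3 ≤ E :=
    (le_max_left _ _).trans ((le_max_right _ _).trans ((le_max_right _ _).trans hE))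
  have hE4 : 2000 ≤ E :=
    (le_max_right _ _).trans ((le_max_right _ _).trans ((le_max_right _ _).trans hE))
  have hSu : Su E z x y := hSx.1
  obtain ⟨a1, a2, a3, a4, a5, a6, a7, a8, a9, a10, a11, a12, a13, a14⟩ := h2 E z x y hE2 hSu
  obtain ⟨-, h3'⟩ := h3 E z x y hE3 hSu
  obtain ⟨hg1, -, -⟩ := h3' B.card hBk
  obtain ⟨b1, b2, b3, b4, b5⟩ := hSu
  obtain ⟨hQd, hb, hxuv⟩ := hIn
  have hQ0 : 0 < Q := by omega
  have hE' : (2000 : ℝ) ≤ E := by exact_mod_cast hE4
  have hlogx : 0 ≤ Real.log x := by linarith [sq_nonneg (E : ℝ)]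
  have hpQ : ∀ p : ℕ, p.Prime → p ∣ Q → p ≤ y := by
    intro p hp hpd
    have h1 := (Nat.Prime.dvd_primorial_iff hp).1 (hpd.trans hQd)
    have h2 : (⌊Real.log x / 20⌋₊ : ℝ) ≤ Real.log x / 20 := Nat.floor_le (by positivity)
    have h3 : (p : ℝ) ≤ (⌊Real.log x / 20⌋₊ : ℝ) := by exact_mod_cast h1
    have h4 : (p : ℝ) ≤ y := by linarith
    exact_mod_cast h4
  constructor
  · intro hcc
    have hd0 : ∀ i ∈ B, 0 < d i := fun i hi => Nat.pos_of_ne_zero (hd i hi).1.ne_zero
    have hc : ∀ i ∈ B, Nat.Coprime Q (d i) := by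
      intro i hi
      by_contra hcon
      obtain ⟨p, hp, h1, h2⟩ := Nat.Prime.not_coprime_iff_dvd.1 hcon
      have h3 := hpQ p hp h1
      have h4 := (hd i hi).2 p hp h2
      omega
    have hq : ∀ p : ℕ, p.Prime → y < p → p ≤ z → ¬ p ∣ Q * ∏ i ∈ B, d i := by
      intro p hp hyp hpz hdv
      rcases (Nat.Prime.dvd_mul hp).1 hdv with h | h
      · have := hpQ p hp h
        omega
      · obtain ⟨i, hi, h2⟩ := (Nat.Prime.prime hp).exists_mem_finset_dvd h
        have h4 := (hd i hi).2 p hp h2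
        omega
    have huv : u ≤ v := by omega
    set k := B.card with hk
    have hky : k ≤ y := by
      have e1 : k ≤ k ^ 2 := Nat.le_self_pow (by norm_num) _
      have e2 : E ≤ E ^ 2 := Nat.le_self_pow (by norm_num) _
      omega
    obtain ⟨c1, c2, c3⟩ := h0 E y z k (ka B) hE0 b1 a6 a9 hBk (ka_le B)
    obtain ⟨-, -, -, c4, c5⟩ := h1 E y z k hE1 b1 a6 a9 hBk
    have hgB : ∏ p ∈ pr y z, (1 - (ka B p : ℝ) / p) = gB y z B := rfl
    rw [hgB] at c1 c2 c3
    set M := XI u v Q / (∏ i ∈ B, (d i : ℝ)) with hMdef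
    have hDpos : 0 < ∏ i ∈ B, (d i : ℝ) := Finset.prod_pos fun i hi => by exact_mod_cast hd0 i hi
    have hD : ∏ i ∈ B, (d i : ℝ) ≤ (z : ℝ) ^ (E / 4) := by exact_mod_cast hdD
    have hM : 1 / 2 * Real.exp (65 / 100 * (E * Real.log z)) ≤ M :=
      (M_lower E z x hE4 (by linarith) b2 _ hDpos hD).trans
        (div_le_div_of_nonneg_right (XX_le_XI hQ0 hQd hxuv) hDpos.le)
    have hM0 : 0 < M := lt_of_lt_of_le (by positivity) hM
    have hgoal : XI u v Q * (gB y z B * ∏ i ∈ B, (1 / (d i : ℝ))) = M * gB y z B := by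
      rw [Finset.prod_div_distrib, Finset.prod_const_one, hMdef]
      ring
    rw [hgoal]
    set F := FF u v Q b B d with hF
    have hcount : ∀ A : Finset ℕ, A ⊆ pr y z →
        |((F.filter (fun n => A ⊆ hit y z B n)).card : ℝ)
          - M * ∏ p ∈ A, ((ka B p : ℝ) / p)| ≤ 2 * (k : ℝ) ^ A.card :=
      fun A hA => count_hit u v Q y z b B d huv hb hd0 hc hcc hq A hA
    have hAA : ∀ A ∈ AA E y z, A ⊆ pr y z := fun A hA => mem_powerset.1 (mem_filter.1 hA).1
    have hAX : ∀ t, ∀ A ∈ AX E y z t, A ⊆ pr y z :=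
      fun t A hA => mem_powerset.1 (mem_filter.1 hA).1
    have hBHn := fun n => Pool.Agent.Helper10.TU.bh E y z (hit y z B n) (by omega)
      (hit_sub y z B n)
    set SU := ∑ n ∈ F, ∏ t ∈ range z, Ut E y z t (hit y z B n) with hSU
    set SE := ∑ n ∈ F, EF E y z (hit y z B n) with hSE
    have hcnt : (((NI u v Q b).filter (fun n => ∀ i ∈ B, d i ∣ n + i ∧ Rg y z (n + i))).card : ℝ) =
        ∑ n ∈ F, (if hit y z B n = ∅ then (1 : ℝ) else 0) := by
      rw [← Finset.sum_filter, Finset.sum_const, nsmul_eq_mul, mul_one, hF, FF,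
        Finset.filter_filter]
      congr 2
      refine Finset.filter_congr fun n _ => ?_
      rw [hit_empty]
      exact ⟨fun h => ⟨fun i hi => (h i hi).1, fun i hi => (h i hi).2⟩,
        fun h i hi => ⟨h.1 i hi, h.2 i hi⟩⟩
    rw [hcnt]
    refine (final E z M (gB y z B) _ SU SE hE4 a1 hM
      (hg1.trans (gg_le_gB y z B hky)) ?_ ?_ ?_ ?_).1
    · exact Finset.sum_le_sum fun n _ => (hBHn n).2.1
    · rw [hSU, hSE, ← Finset.sum_add_distrib]
      exact Finset.sum_le_sum fun n _ => (hBHn n).2.2.1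
    · have e1 : SU = ∑ n ∈ F, ∑ A ∈ (AA E y z).filter (fun A => A ⊆ hit y z B n),
          (-1 : ℝ) ^ A.card := Finset.sum_congr rfl fun n _ => (hBHn n).2.2.2.1
      have e2 := sum_hit F y z B M (AA E y z) (fun A hA => hcount A (hAA A hA))
      have e3 := sum_pow_le y z k (z ^ (E / 32)) hky (AA E y z) hAA c4
      rw [← e1, ← hk] at e2
      have e4 : |M * ∑ A ∈ AA E y z, (-1 : ℝ) ^ A.card * ∏ p ∈ A, ((ka B p : ℝ) / p)
          - M * gB y z B| ≤ Real.exp (-(E : ℝ)) * (M * gB y z B) := by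
        rw [← mul_sub, abs_mul, abs_of_pos hM0]
        have := mul_le_mul_of_nonneg_left c2 hM0.le
        linarith
      have e5 := abs_sub_le SU
        (M * ∑ A ∈ AA E y z, (-1 : ℝ) ^ A.card * ∏ p ∈ A, ((ka B p : ℝ) / p)) (M * gB y z B)
      linarith
    · have e1 : SE = -∑ t ∈ range z, ∑ n ∈ F,
          ∑ A ∈ (AX E y z t).filter (fun A => A ⊆ hit y z B n), (-1 : ℝ) ^ A.card := by
        rw [Finset.sum_comm, ← Finset.sum_neg_distrib]
        exact Finset.sum_congr rfl fun n _ => (hBHn n).2.2.2.2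
      have e2 : ∀ t ∈ range z, -(2 * ((z ^ (E / 32) : ℕ) : ℝ) ^ 2) ≤
          ∑ n ∈ F, ∑ A ∈ (AX E y z t).filter (fun A => A ⊆ hit y z B n), (-1 : ℝ) ^ A.card
          - M * ∑ A ∈ AX E y z t, (-1 : ℝ) ^ A.card * ∏ p ∈ A, ((ka B p : ℝ) / p) := by
        intro t ht
        have f1 := sum_hit F y z B M (AX E y z t) (fun A hA => hcount A (hAX t A hA))
        have f2 := sum_pow_le y z k (z ^ (E / 32)) hky (AX E y z t) (hAX t)
          (c5 t (mem_range.1 ht))
        have f3 := (abs_le.1 f1).1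
        rw [← hk] at f3
        linarith
      have e3 := Finset.sum_le_sum e2
      rw [Finset.sum_sub_distrib, Finset.sum_const, card_range, nsmul_eq_mul, ← Finset.mul_sum]
        at e3
      have e4 := mul_le_mul_of_nonneg_left c3 hM0.le
      linarith
  · intro hcc
    push Not at hcc
    obtain ⟨i, hi, j, hj, hij, hcop'⟩ := hcc
    obtain ⟨p, hp, h1, h2⟩ := Nat.Prime.not_coprime_iff_dvd.1 hcop'
    rw [Finset.card_eq_zero, Finset.filter_eq_empty_iff]
    intro n _ hn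
    have h3 : p ∣ n + i := h1.trans (hn i hi).1
    have h4 : p ∣ n + j := h2.trans (hn j hj).1
    rcases lt_or_gt_of_ne hij with h | h
    · have h5 : p ∣ (n + j) - (n + i) := Nat.dvd_sub h4 h3
      rw [Nat.add_sub_add_left] at h5
      exact Nat.Prime.not_coprime_iff_dvd.2 ⟨p, hp, h1, h5⟩ (hcop i hi j hj h)
    · have h5 : p ∣ (n + i) - (n + j) := Nat.dvd_sub h3 h4
      rw [Nat.add_sub_add_left] at h5
      exact Nat.Prime.not_coprime_iff_dvd.2 ⟨p, hp, h2, h5⟩ (hcop j hj i hi h)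

end Pool.Agent.Helper88.SK
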