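import Pool.Agent.Helper64.SE.BK
import Pool.Agent.Helper30.SE.VB
import Pool.Agent.Helper61.SE.PW
import Pool.Agent.Helper59.SE.CL
import Pool.Agent.Helper88.SE.TR
import Pool.Agent.Helper88.SE.Fin
import Pool.Agent.Helper56.TU.A4
import Pool.Agent.Helper88.SK.GH
import Pool.Agent.Helper88.SK.TK
import Pool.Agent.Helper88.SK.DV
import Pool.Agent.Helper88.SK.TH
import Pool.Agent.Helper88.SK.S1
import Pool.Agent.Helper88.SK.GT
import Pool.Agent.Helper88.SK.KQ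
import Pool.Agent.Helper88.SK.RC
import Pool.Agent.Helper88.SK.SU
import Pool.Agent.Helper88.SK.LT
import Pool.Agent.Helper88.SK.T

/-!
# Arbitrary sets of translates of polynomial size without primes, in every interval: assembly
-/

set_option autoImplicit false

open Finset Filter Topology

namespace Pool.Agent.Helper88.SK

/-- the local theorem -/
theorem klt : KLT := by
  have vb : Pool.Agent.Helper88.SE.StmtVB := Pool.Agent.Helper30.SE.vb
  have th : ∀ κ, KTH κ := fun κ =>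
    th κ Pool.Agent.Helper88.SE.tr (tk Pool.Agent.Helper64.SE.bk) (gh κ)
  have s1 : ∀ κ, KS1 κ := fun κ => s1 κ (th κ) (gh κ) vb
  have kq : KKQ := kq Pool.Agent.Helper88.CG.vp vb s1 (fun κ => gt κ (th κ) (gh κ) vb)
    Pool.Agent.Helper61.SE.pw
  exact lt Pool.Agent.Helper88.CG.vp dv s1 kq (fun κ => rc κ (th κ) (gh κ) vb)
    (fun κ => su κ vb) Pool.Agent.Helper59.SE.cl Pool.Agent.Helper56.TU.a4

/-- the final form -/
theorem main : KT := by
  obtain ⟨c, C, hc, hC, h0⟩ := t0 klt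
  refine ⟨min c (1 / (2 * (C + 1))), C, lt_min hc (by positivity), ?_, fun k => ?_⟩
  · calc min c (1 / (2 * (C + 1))) * C ≤ min c (1 / (2 * (C + 1))) * (C + 1) := by
          refine mul_le_mul_of_nonneg_left (by linarith) (le_min hc.le (by positivity))
      _ ≤ 1 / (2 * (C + 1)) * (C + 1) :=
          mul_le_mul_of_nonneg_right (min_le_right _ _) (by positivity)
      _ = 1 / 2 := by field_simp
  obtain ⟨A, X, hX⟩ := h0 k
  refine ⟨A, max X 3, fun x hx u hu L hL hLc S hS hSL => ?_⟩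
  have hx3 : (3 : ℝ) ≤ x := le_trans (le_max_right _ _) hx
  have hll : 0 ≤ Real.log (Real.log x) := by
    refine Real.log_nonneg ?_
    rw [Real.le_log_iff_exp_le (by linarith)]
    exact le_trans Real.exp_one_lt_three.le hx3
  replace hLc : L ≤ c * Real.log (Real.log x) :=
    le_trans hLc (mul_le_mul_of_nonneg_right (min_le_left _ _) hll)
  refine le_trans (hX x (le_trans (le_max_left _ _) hx) u hu L hL hLc S hS hSL) ?_
  have hsub : {n : ℤ | u < n ∧ (n : ℝ) ≤ u + x ∧ ∀ s ∈ S, ∀ p : ℕ, p.Prime → n + s ≠ p} ⊆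
      {n : ℤ | u < n ∧ (n : ℝ) ≤ u + x ∧ (∀ s ∈ S, ∀ p : ℕ, p.Prime → n + s ≠ p) ∧
        ∀ a b : ℤ, a ≤ b → 3 ≤ n + a → (∀ s : ℤ, a ≤ s → s ≤ b → s ∈ S) →
          ∃ m : ℕ, (Nat.nth Nat.Prime m : ℤ) < n + a ∧
            n + b < Nat.nth Nat.Prime (m + 1)} := by
    rintro n ⟨h1, h2, h3⟩
    refine ⟨h1, h2, h3, fun a b hab h5 h6 => ?_⟩
    obtain ⟨m, hm1, hm2⟩ := Pool.Agent.Helper88.SE.gap (n := n + a) (a := 0) (b := b - a) h5
      le_rfl (by omega) (fun s hs1 hs2 p hp he =>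
        h3 (a + s) (h6 (a + s) (by omega) (by omega)) p hp (by omega))
    exact ⟨m, by omega, by omega⟩
  have hfin : {n : ℤ | u < n ∧ (n : ℝ) ≤ u + x ∧ (∀ s ∈ S, ∀ p : ℕ, p.Prime → n + s ≠ p) ∧
        ∀ a b : ℤ, a ≤ b → 3 ≤ n + a → (∀ s : ℤ, a ≤ s → s ≤ b → s ∈ S) →
          ∃ m : ℕ, (Nat.nth Nat.Prime m : ℤ) < n + a ∧
            n + b < Nat.nth Nat.Prime (m + 1)}.Finite := by
    refine (Set.finite_Icc ⌊u⌋ ⌊u + x⌋).subset ?_
    rintro n ⟨h1, h2, -⟩
    refine ⟨?_, Int.le_floor.2 h2⟩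
    have h3 : (⌊u⌋ : ℝ) ≤ u := Int.floor_le u
    have h4 : (⌊u⌋ : ℝ) ≤ n := h3.trans h1.le
    exact_mod_cast h4
  exact_mod_cast Set.ncard_le_ncard hsub hfin

end Pool.Agent.Helper88.SK
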